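import Pool.Agent.H889R2.OM.Defs
open MeasureTheory Filter Topology Set Metric
open scoped ENNReal NNReal RealInnerProductSpace

set_option autoImplicit false

namespace Pool.Agent.H889R2.OM

open Pool.Agent.Helper533.Polar

variable {n : ℕ}

theorem API_zero {p : ℝ} {μ : Measure (Sp n)} {A : Sp n → Sp n → Sp n} (h : Good p μ A) :
    ∀ᵐ x ∂μ, A x 0 = 0 := by
  obtain ⟨hp, hfin, hsm, α, β, Cd, θ, Cs, lam, Cp, hα, hβ, hA, hadm⟩ := h
  filter_upwards [hA.bdd] with x hx
  have h2 := hx 0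
  rw [norm_zero, Real.zero_rpow (by linarith), mul_zero] at h2
  exact norm_le_zero_iff.1 h2

/-- constants are harmonic -/
theorem Hm_const {p : ℝ} {μ : Measure (Sp n)} {A : Sp n → Sp n → Sp n} (h : Good p μ A)
    (G : Set (Sp n)) (c : ℝ) : Hm A p μ G (fun _ => c) := by
  have := h.fin
  refine ⟨continuousOn_const, fun _ => 0, LH.const c, fun φ _ => ?_⟩
  have h1 : ∀ᵐ x ∂μ, ⟪A x 0, gradient φ x⟫ = (0 : ℝ) := by
    filter_upwards [API_zero h] with x hx
    rw [hx, inner_zero_left]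
  rw [integral_congr_ae h1, integral_zero]

theorem API_mul {p : ℝ} {μ : Measure (Sp n)} {A : Sp n → Sp n → Sp n} (h : Good p μ A)
    {G : Set (Sp n)} {u : Sp n → ℝ} (hu : Hm A p μ G u) (c : ℝ) :
    Hm A p μ G (fun x => c * u x) := by
  have hz := API_zero h
  obtain ⟨hp, hfin, hsm, α, β, Cd, θ, Cs, lam, Cp, hα, hβ, hA, hadm⟩ := h
  have := hfin
  obtain ⟨hc, H, hH, heq⟩ := hu
  refine ⟨continuousOn_const.mul hc, fun x => c • H x, hH.const_mul c, fun φ hφ => ?_⟩
  by_cases hc0 : c = 0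
  · have h1 : ∀ᵐ x ∂μ, ⟪A x (c • H x), gradient φ x⟫ = (0 : ℝ) := by
      filter_upwards [hz] with x hx
      rw [hc0, zero_smul, hx, inner_zero_left]
    rw [integral_congr_ae h1, integral_zero]
  · have h1 : ∀ᵐ x ∂μ, ⟪A x (c • H x), gradient φ x⟫ =
        (c * |c| ^ (p - 2)) * ⟪A x (H x), gradient φ x⟫ := by
      filter_upwards [hA.hom] with x hx
      rw [hx c (H x) hc0, real_inner_smul_left]
    rw [integral_congr_ae h1, integral_const_mul, heq φ hφ, mul_zero]

theorem API_add {p : ℝ} {μ : Measure (Sp n)} {A : Sp n → Sp n → Sp n} (h : Good p μ A)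
    {G : Set (Sp n)} {u : Sp n → ℝ} (hu : Hm A p μ G u) (c : ℝ) :
    Hm A p μ G (fun x => u x + c) := by
  have := h.fin
  obtain ⟨hc, H, hH, heq⟩ := hu
  refine ⟨hc.add continuousOn_const, H, ?_, heq⟩
  have := LH.add h.one_lt hH (LH.const c)
  simpa using this

/-- API: operations on harmonic functions. -/
theorem API_ok : S_API := by
  intro n p μ A h G hG u hu
  have := h.fin
  refine ⟨API_mul h hu, API_add h hu, fun c => ?_, fun G' hG' hGG => ?_, fun v hv => ?_, ?_⟩
  · have h1 := API_add h (API_mul h hu (-1)) c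
    have h2 : (fun x => -1 * u x + c) = fun x => c - u x := by
      funext x
      ring
    rwa [h2] at h1
  · obtain ⟨hc, H, hH, heq⟩ := hu
    exact ⟨hc.mono hGG, H, hH.mono hGG h.one_lt hG', fun φ hφ => heq φ (hφ.mono hGG)⟩
  · obtain ⟨hc, H, hH, heq⟩ := hu
    exact ⟨hc.congr fun x hx => (hv x hx).symm, H,
      hH.congr (Filter.Eventually.of_forall hv) (Filter.Eventually.of_forall fun _ _ => rfl), heq⟩
  · obtain ⟨hc, H, hH, heq⟩ := hu
    exact ⟨hc, H, hH, fun φ hφ _ => (heq φ hφ).ge⟩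

end Pool.Agent.H889R2.OM
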