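import Pool.Agent.H889R2.OM.Defs
set_option autoImplicit false
open MeasureTheory Filter Topology Set Metric
open scoped ENNReal NNReal RealInnerProductSpace

/-!
# Operations on continuous supersolutions (task APS, helper227)
-/

namespace Pool.Agent.H889R2.OM

open Pool.Agent.Helper533.Polar

variable {n : ℕ}

theorem APS_A_zero {p α β : ℝ} {μ : Measure (Sp n)} {A : Sp n → Sp n → Sp n} (hp : 1 < p)
    (hA : Op p α β μ A) : ∀ᵐ x ∂μ, A x 0 = 0 := by
  filter_upwards [hA.bdd] with x hx
  have h := hx 0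
  rw [norm_zero, Real.zero_rpow (by linarith : p - 1 ≠ 0), mul_zero] at h
  exact norm_le_zero_iff.mp h

theorem APS_ok : S_APS := by
  intro n p μ A h G hG s hs
  obtain ⟨hp, hfin, hsm, α, β, Cd, θ, Cs, lam, Cp, hα, hβ, hA, hadm⟩ := h
  haveI := hfin
  obtain ⟨hc, S, hS⟩ := hs
  refine ⟨fun c => ⟨hc.add continuousOn_const, S, ?_⟩, fun c hc0 => ?_, fun G' hG' hGG' =>
    ⟨hc.mono hGG', S, Sup.mono_set hp hS hG' hGG'⟩⟩
  · have := Sup.sub_const hp hS (-c)
    simpa using this
  · refine ⟨continuousOn_const.mul hc, fun x => c • S x, LH.const_mul c hS.1, ?_⟩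
    intro φ hφ hφ0
    rcases hc0.eq_or_lt with h0 | h0
    · subst h0
      have : ∫ x, ⟪A x ((0 : ℝ) • S x), gradient φ x⟫ ∂μ = 0 := by
        rw [integral_eq_zero_of_ae]
        filter_upwards [APS_A_zero hp hA] with x hx
        simp only [zero_smul, hx, inner_zero_left, Pi.zero_apply]
      rw [this]
    · have h2 : ∫ x, ⟪A x (c • S x), gradient φ x⟫ ∂μ =
          (c * |c| ^ (p - 2)) * ∫ x, ⟪A x (S x), gradient φ x⟫ ∂μ := by
        rw [← integral_const_mul]
        apply integral_congr_ae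
        filter_upwards [hA.hom] with x hx
        rw [hx c (S x) h0.ne', real_inner_smul_left]
      rw [h2]
      refine mul_nonneg ?_ (hS.2 φ hφ hφ0)
      positivity

end Pool.Agent.H889R2.OM
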