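import Pool.Agent.H889R2.OM.Defs
import Pool.Agent.Helper533.Deny.A
set_option autoImplicit false
open MeasureTheory Filter Topology Set Metric
open scoped ENNReal NNReal RealInnerProductSpace

/-! # CMP: comparison principle up to the boundary -/

namespace Pool.Agent.H889R2.OM

open Pool.Agent.Helper533.Polar

theorem CMP_ok (hAPI : S_API) : S_CMP := by
  intro n p μ A h W hW hWc u v hu hv hHu hSv hfr x₀ hx₀
  have hmono := (hAPI n p μ A h W hW u hHu).2.2.2.1
  obtain ⟨hp, hfin, hsm, α, β, Cd, θ, Cs, lam, Cp, hα, hβ, hA, hadm⟩ := h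
  haveI := hfin
  refine le_of_forall_pos_le_add fun e he => ?_
  by_contra hlt
  rw [not_le] at hlt
  obtain ⟨hvc, V, hV⟩ := hSv
  -- the supersolution `v + e`
  have hV' : Sup A p μ W (fun x => v x - (-e)) V := Sup.sub_const hp hV (-e)
  have hVc : ContinuousOn (fun x => v x - (-e)) W := hvc.sub continuousOn_const
  have hcmp := cmp_of_sup hp hα hβ hA hsm hadm hW hV' hVc
  have hd : ContinuousOn (fun x => u x - v x) (closure W) := hu.sub hv
  set W' : Set (Sp n) := W ∩ (fun x => u x - v x) ⁻¹' Ioi e with hW'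
  have hW'o : IsOpen W' :=
    (hd.mono subset_closure).isOpen_inter_preimage hW isOpen_Ioi
  have hW'W : W' ⊆ W := inter_subset_left
  have hclW : closure W' ⊆ closure W := closure_mono hW'W
  have hcle : ∀ x ∈ closure W', e ≤ u x - v x := by
    have hK : IsClosed (closure W ∩ (fun x => u x - v x) ⁻¹' Ici e) :=
      hd.preimage_isClosed_of_isClosed isClosed_closure isClosed_Ici
    have hsub : closure W' ⊆ closure W ∩ (fun x => u x - v x) ⁻¹' Ici e := by
      refine closure_minimal (fun x hx => ?_) hK
      have h3 : e < u x - v x := hx.2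
      exact ⟨subset_closure hx.1, h3.le⟩
    intro x hx
    exact (hsub hx).2
  have hcW : closure W' ⊆ W := by
    intro x hx
    by_contra hxW
    have hxf : x ∈ frontier W := by
      rw [hW.frontier_eq]
      exact ⟨hclW hx, hxW⟩
    have h1 := hfr x hxf
    have h2 := hcle x hx
    linarith
  have hcomp : IsCompact (closure W') := hWc.of_isClosed_subset isClosed_closure hclW
  obtain ⟨huc, H, hH, hHeq⟩ := hmono W' hW'o hW'W
  have hmem : x₀ ∈ W' := by
    refine ⟨hx₀, ?_⟩
    show e < u x₀ - v x₀
    linarith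
  have key := hcmp W' hW'o hcomp hcW u H (hu.mono hclW) hH hHeq (by
    intro x hx
    rw [hW'o.frontier_eq] at hx
    have h1 : ¬ (e < u x - v x) := fun h' => hx.2 ⟨hcW hx.1, h'⟩
    linarith) x₀ hmem
  linarith

end Pool.Agent.H889R2.OM
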