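import Pool.Agent.Helper533.NHM.PotA
open MeasureTheory Filter Topology Set Metric
open scoped ENNReal NNReal RealInnerProductSpace

/-!
# Openness of weighted harmonic morphisms (MP_abd978_an): internal definitions and statements

`Pool.Agent.Helper533.Polar` is the library of weighted nonlinear potential theory.
-/

set_option linter.unusedVariables false

namespace Pool.Agent.H889R2.OM

open Pool.Agent.Helper533.Polar

variable {n : ℕ}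

/-- standing assumptions on the measure and the operator -/
structure Good (p : ℝ) (μ : Measure (Sp n)) (A : Sp n → Sp n → Sp n) : Prop where
  one_lt : 1 < p
  fin : IsFiniteMeasureOnCompacts μ
  sm : SMono μ A
  ex : ∃ α β Cd θ Cs lam Cp : ℝ, 0 < α ∧ 0 < β ∧ Op p α β μ A ∧ Adm p μ Cd θ Cs lam Cp

/-- continuous weak solutions of `div A(x, ∇u) = 0` in `G` -/
def Hm (A : Sp n → Sp n → Sp n) (p : ℝ) (μ : Measure (Sp n)) (G : Set (Sp n)) (u : Sp n → ℝ) :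
    Prop :=
  ContinuousOn u G ∧ ∃ H : Sp n → Sp n, LH p μ G u H ∧
    ∀ φ : Sp n → ℝ, Cc G φ → ∫ x, ⟪A x (H x), gradient φ x⟫ ∂μ = 0

/-- continuous weak supersolutions in `G` -/
def SupC (A : Sp n → Sp n → Sp n) (p : ℝ) (μ : Measure (Sp n)) (G : Set (Sp n)) (s : Sp n → ℝ) :
    Prop :=
  ContinuousOn s G ∧ ∃ S : Sp n → Sp n, Sup A p μ G s S

/-- `f` is a harmonic morphism on `Ω`: harmonic functions for `(A, μ)` are pulled back to harmonic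
functions for `(As, μs)` -/
structure Mor (As : Sp n → Sp n → Sp n) (μs : Measure (Sp n)) (A : Sp n → Sp n → Sp n)
    (μ : Measure (Sp n)) (p : ℝ) (Ω : Set (Sp n)) (f : Sp n → Sp n) : Prop where
  cont : ContinuousOn f Ω
  pull : ∀ G' : Set (Sp n), IsOpen G' → ∀ u : Sp n → ℝ, Hm A p μ G' u →
    Hm As p μs (Ω ∩ f ⁻¹' G') (fun x => u (f x))

/-! ### Statements -/

/-- API: operations on harmonic functions. -/
def S_API : Prop := ∀ (n : ℕ) (p : ℝ) (μ : Measure (Sp n)) (A : Sp n → Sp n → Sp n),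
  Good p μ A → ∀ (G : Set (Sp n)), IsOpen G → ∀ u : Sp n → ℝ, Hm A p μ G u →
    (∀ c : ℝ, Hm A p μ G (fun x => c * u x)) ∧ (∀ c : ℝ, Hm A p μ G (fun x => u x + c)) ∧
    (∀ c : ℝ, Hm A p μ G (fun x => c - u x)) ∧
    (∀ G' : Set (Sp n), IsOpen G' → G' ⊆ G → Hm A p μ G' u) ∧
    (∀ v : Sp n → ℝ, (∀ x ∈ G, u x = v x) → Hm A p μ G v) ∧ SupC A p μ G u

/-- APS: operations on supersolutions. -/
def S_APS : Prop := ∀ (n : ℕ) (p : ℝ) (μ : Measure (Sp n)) (A : Sp n → Sp n → Sp n),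
  Good p μ A → ∀ (G : Set (Sp n)), IsOpen G → ∀ s : Sp n → ℝ, SupC A p μ G s →
    (∀ c : ℝ, SupC A p μ G (fun x => s x + c)) ∧
    (∀ c : ℝ, 0 ≤ c → SupC A p μ G (fun x => c * s x)) ∧
    (∀ G' : Set (Sp n), IsOpen G' → G' ⊆ G → SupC A p μ G' s)

/-- EXP: expansion of positivity. -/
def S_EXP : Prop := ∀ (n : ℕ) (p : ℝ) (μ : Measure (Sp n)) (A : Sp n → Sp n → Sp n),
  Good p μ A → ∃ L δ : ℝ, 1 ≤ L ∧ 0 < δ ∧ δ < 1 ∧ ∀ G : Set (Sp n), IsOpen G →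
    ∀ s : Sp n → ℝ, SupC A p μ G s → (∀ x ∈ G, 0 ≤ s x) → ∀ (x : Sp n) (r : ℝ), 0 < r →
    ball x (L * r) ⊆ G → ∀ t : ℝ, 0 < t → (∀ y ∈ ball x r, t ≤ s y) →
    ∀ y ∈ ball x (2 * r), δ * t ≤ s y

/-- OSC: decay of the oscillation. -/
def S_OSC : Prop := ∀ (n : ℕ) (p : ℝ) (μ : Measure (Sp n)) (A : Sp n → Sp n → Sp n),
  Good p μ A → ∀ e : ℝ, 0 < e → ∃ κ : ℝ, 0 < κ ∧ κ ≤ 1 ∧ ∀ G : Set (Sp n), IsOpen G →
    ∀ u : Sp n → ℝ, Hm A p μ G u → ∀ (x : Sp n) (r : ℝ), 0 < r → ball x r ⊆ G →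
    ∀ a b : ℝ, (∀ y ∈ ball x r, a ≤ u y ∧ u y ≤ b) →
    ∀ y ∈ ball x (κ * r), ∀ z ∈ ball x (κ * r), u y - u z ≤ e * (b - a)

/-- HAR: Harnack inequality. -/
def S_HAR : Prop := ∀ (n : ℕ) (p : ℝ) (μ : Measure (Sp n)) (A : Sp n → Sp n → Sp n),
  Good p μ A → ∃ L C : ℝ, 1 ≤ L ∧ 1 ≤ C ∧ ∀ G : Set (Sp n), IsOpen G →
    ∀ u : Sp n → ℝ, Hm A p μ G u → (∀ x ∈ G, 0 ≤ u x) → ∀ (x : Sp n) (r : ℝ), 0 < r →
    ball x (L * r) ⊆ G → ∀ y ∈ ball x r, ∀ z ∈ ball x r, u y ≤ C * u z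

/-- POS: strong minimum principle for supersolutions. -/
def S_POS : Prop := ∀ (n : ℕ) (p : ℝ) (μ : Measure (Sp n)) (A : Sp n → Sp n → Sp n),
  Good p μ A → ∀ G : Set (Sp n), IsOpen G → IsPreconnected G →
    ∀ s : Sp n → ℝ, SupC A p μ G s → (∀ x ∈ G, 0 ≤ s x) → (∃ x₀ ∈ G, 0 < s x₀) →
    ∀ x ∈ G, 0 < s x

/-- SPH: Harnack inequality on spheres, scale invariant. -/
def S_SPH : Prop := ∀ n : ℕ, 2 ≤ n → ∀ (p : ℝ) (μ : Measure (Sp n)) (A : Sp n → Sp n → Sp n),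
  Good p μ A → ∃ C : ℝ, 1 ≤ C ∧ ∀ (y : Sp n) (ρ : ℝ), 0 < ρ → ∀ u : Sp n → ℝ,
    Hm A p μ {z | ρ / 2 < dist z y ∧ dist z y < 2 * ρ} u →
    (∀ z, ρ / 2 < dist z y → dist z y < 2 * ρ → 0 ≤ u z) →
    ∀ z z', dist z y = ρ → dist z' y = ρ → u z ≤ C * u z'

/-- CMP: comparison principle on a bounded open set, for functions continuous up to the
boundary. -/
def S_CMP : Prop := ∀ (n : ℕ) (p : ℝ) (μ : Measure (Sp n)) (A : Sp n → Sp n → Sp n),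
  Good p μ A → ∀ W : Set (Sp n), IsOpen W → IsCompact (closure W) → ∀ u v : Sp n → ℝ,
    ContinuousOn u (closure W) → ContinuousOn v (closure W) → Hm A p μ W u → SupC A p μ W v →
    (∀ x ∈ frontier W, u x ≤ v x) → ∀ x ∈ W, u x ≤ v x

/-- `ω` is a potential in `ball y R` of (something in) `closedBall a s` -/
structure Pot (A : Sp n → Sp n → Sp n) (p : ℝ) (μ : Measure (Sp n)) (y : Sp n) (R : ℝ)
    (a : Sp n) (s : ℝ) (ω : Sp n → ℝ) : Prop where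
  cont : Continuous ω
  nonneg : ∀ x, 0 ≤ ω x
  le_one : ∀ x, ω x ≤ 1
  out : ∀ x, x ∉ ball y R → ω x = 0
  one : ∀ x ∈ closedBall a (s / 2), ω x = 1
  sup : SupC A p μ (ball y R) ω
  harm : Hm A p μ (ball y R \ closedBall a s) ω

/-- POT: existence of potentials. -/
def S_POT : Prop := ∀ n : ℕ, 1 ≤ n → ∀ (p : ℝ) (μ : Measure (Sp n)) (A : Sp n → Sp n → Sp n),
  Good p μ A → ∀ (y : Sp n) (R : ℝ) (a : Sp n) (s : ℝ), 0 < s → closedBall a s ⊆ ball y R →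
    ∃ ω : Sp n → ℝ, Pot A p μ y R a s ω

/-- POL: potentials of small balls around a point of capacity zero are small. -/
def S_POL : Prop := ∀ n : ℕ, 1 ≤ n → ∀ (p : ℝ) (μ : Measure (Sp n)) (A : Sp n → Sp n → Sp n),
  Good p μ A → ∀ y : Sp n, CapNull p μ {y} {y} → ∀ (R : ℝ) (z : Sp n), 0 < R → z ≠ y →
    ∀ e : ℝ, 0 < e → ∀ s₀ : ℝ, 0 < s₀ → ∃ (s : ℝ) (ω : Sp n → ℝ), 0 < s ∧ s < s₀ ∧
      closedBall y s ⊆ ball y R ∧ Pot A p μ y R y s ω ∧ ω z < e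

/-- PAS: pasting. -/
def S_PAS : Prop := ∀ (n : ℕ) (p : ℝ) (μ : Measure (Sp n)) (A : Sp n → Sp n → Sp n),
  Good p μ A → ∀ G : Set (Sp n), IsOpen G → ∀ (v : Sp n → ℝ) (M : ℝ), ContinuousOn v G →
    (∀ x ∈ G, v x ≤ M) → Hm A p μ {x | x ∈ G ∧ v x < M} v → CmpSuper A p μ G v

/-- LOC: openness at a point which is not interior to its fibre. -/
def S_LOC : Prop := ∀ n : ℕ, 2 ≤ n → ∀ (p : ℝ) (μs μ : Measure (Sp n))
  (As A : Sp n → Sp n → Sp n), Good p μs As → Good p μ A → ∀ (Ω : Set (Sp n)) (f : Sp n → Sp n),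
  IsOpen Ω → Mor As μs A μ p Ω f → ∀ x₀ ∈ Ω,
  (∀ r : ℝ, 0 < r → ∃ x₁ ∈ ball x₀ r, x₁ ∈ Ω ∧ f x₁ ≠ f x₀) →
  ∀ r : ℝ, 0 < r → closedBall x₀ r ⊆ Ω → f '' closedBall x₀ r ∈ 𝓝 (f x₀)

/-- RAD: fibres over points of capacity zero have empty interior. -/
def S_RAD : Prop := ∀ n : ℕ, 2 ≤ n → ∀ (p : ℝ) (μs μ : Measure (Sp n))
  (As A : Sp n → Sp n → Sp n), Good p μs As → Good p μ A → ∀ (Ω : Set (Sp n)) (f : Sp n → Sp n),
  IsOpen Ω → IsPreconnected Ω → Mor As μs A μ p Ω f → ∀ y : Sp n, CapNull p μ {y} {y} →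
  (∃ x ∈ Ω, f x ≠ y) → interior (Ω ∩ f ⁻¹' {y}) = ∅

end Pool.Agent.H889R2.OM
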