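import Pool.Agent.H889R2.OM.Defs

set_option autoImplicit false

open MeasureTheory Filter Topology Set Metric
open scoped ENNReal NNReal RealInnerProductSpace

namespace Pool.Agent.H889R2.OM

open Pool.Agent.Helper533.Polar

theorem EXP_ok : S_EXP := by
  intro n p μ A h
  obtain ⟨hp, hfin, hsm, α, β, Cd, θ, Cs, lam, Cp, hα, hβ, hA, hadm⟩ := h
  haveI := hfin
  have hCd : 1 ≤ Cd := hadm.one_le_Cd
  have hCd0 : 0 < Cd := by linarith
  have hlam : 1 ≤ lam := hadm.one_le_lam
  have hγ : 0 < (Cd * Cd)⁻¹ := by positivity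
  obtain ⟨δ, hδ0, hδ1, hDG⟩ := DG2 (n := n) (p := p) (α := α) (β := β) (Cd := Cd) (θ := θ)
    (Cs := Cs) (lam := lam) (Cp := Cp) hp hα hβ hγ
  refine ⟨8 * lam, δ, by linarith, hδ0, hδ1, ?_⟩
  intro G hG s hs hs0 x r hr hball t ht hst
  obtain ⟨hsc, S, hS⟩ := hs
  have hball' : ball x (2 * lam * (4 * r)) ⊆ G := by
    have : 2 * lam * (4 * r) = 8 * lam * r := by ring
    rw [this]; exact hball
  have hmeas : (Cd * Cd)⁻¹ * μ.real (ball x (4 * r)) ≤
      μ.real {y | y ∈ ball x (4 * r) ∧ t ≤ s y} := by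
    have h1 := hadm.dbl x (2 * r) (by positivity)
    have h2 := hadm.dbl x r hr
    have h3 : (2 : ℝ) * (2 * r) = 4 * r := by ring
    rw [h3] at h1
    have h4 : μ.real (ball x (4 * r)) ≤ Cd * Cd * μ.real (ball x r) := by
      calc _ ≤ Cd * μ.real (ball x (2 * r)) := h1
        _ ≤ Cd * (Cd * μ.real (ball x r)) := mul_le_mul_of_nonneg_left h2 hCd0.le
        _ = _ := by ring
    have h5 : μ.real (ball x r) ≤ μ.real {y | y ∈ ball x (4 * r) ∧ t ≤ s y} := by
      apply measureReal_mono
      · intro y hy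
        exact ⟨ball_subset_ball (by linarith) hy, hst y hy⟩
      · exact ne_top_of_le_ne_top (hadm.fin x (4 * r)).ne (measure_mono fun y hy => hy.1)
    rw [inv_mul_le_iff₀ (by positivity)]
    exact h4.trans (mul_le_mul_of_nonneg_left h5 (by positivity))
  have hae := hDG μ A hA hadm G hG s S hS (ae_of_all _ fun y hy => hs0 y hy) x (4 * r)
    (by positivity) hball' t ht hmeas
  have e1 : 4 * r / 2 = 2 * r := by ring
  rw [e1] at hae
  have hsub : ball x (2 * r) ⊆ G :=
    (ball_subset_ball (by nlinarith)).trans hball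
  have hfinal := nonneg_of_ae hadm.pos (isOpen_ball (x := x) (ε := 2 * r))
    (g := fun y => s y - δ * t) ((hsc.mono hsub).sub continuousOn_const) (by
      filter_upwards [hae] with y hy hyb
      have := hy hyb
      linarith)
  intro y hy
  have := hfinal y hy
  linarith

end Pool.Agent.H889R2.OM
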