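import Pool.Agent.H889R2.OM.Defs
open MeasureTheory Filter Topology Set Metric
open scoped ENNReal NNReal RealInnerProductSpace

/-!
# Harnack inequality from the expansion of positivity and the decay of the oscillation
-/

set_option autoImplicit false

namespace Pool.Agent.H889R2.OM

open Pool.Agent.Helper533.Polar

variable {n : ℕ}

/-- iteration of the expansion of positivity -/
lemma HAR_chain {G : Set (Sp n)} {u : Sp n → ℝ} {L δ : ℝ} (hL : 1 ≤ L) (hδ : 0 < δ)
    (hE : ∀ (x : Sp n) (r : ℝ), 0 < r → ball x (L * r) ⊆ G → ∀ t : ℝ, 0 < t →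
      (∀ y ∈ ball x r, t ≤ u y) → ∀ y ∈ ball x (2 * r), δ * t ≤ u y)
    (x : Sp n) (r t : ℝ) (hr : 0 < r) (ht : 0 < t) (h : ∀ y ∈ ball x r, t ≤ u y) (k : ℕ)
    (hk : ball x (L * (2 ^ k * r)) ⊆ G) : ∀ y ∈ ball x (2 ^ k * r), δ ^ k * t ≤ u y := by
  induction k with
  | zero => simpa using h
  | succ k ih =>
    have hsub : ball x (L * (2 ^ k * r)) ⊆ G := by
      refine (ball_subset_ball ?_).trans hk
      rw [pow_succ]
      have h1 : 0 ≤ (2 : ℝ) ^ k * r := by positivity
      have h2 : (2 : ℝ) ^ k * r ≤ 2 ^ k * 2 * r := by nlinarith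
      exact mul_le_mul_of_nonneg_left h2 (by linarith)
    have h1 := hE x (2 ^ k * r) (by positivity) hsub (δ ^ k * t) (by positivity) (ih hsub)
    intro y hy
    have h2 := h1 y (by
      have e : (2 : ℝ) * (2 ^ k * r) = 2 ^ (k + 1) * r := by rw [pow_succ]; ring
      rwa [e])
    have e : δ * (δ ^ k * t) = δ ^ (k + 1) * t := by rw [pow_succ]; ring
    rwa [e] at h2

lemma HAR_core {G : Set (Sp n)} {u : Sp n → ℝ} (hu : ContinuousOn u G) (hu0 : ∀ x ∈ G, 0 ≤ u x)
    {L δ κ b : ℝ} (hL : 1 ≤ L) (hδ : 0 < δ) (hκ : 0 < κ) (hκ1 : κ ≤ 1) (hb : 0 < b)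
    (h2b : (2 : ℝ) ^ b = 1 / δ)
    (hE : ∀ (x : Sp n) (r : ℝ), 0 < r → ball x (L * r) ⊆ G → ∀ t : ℝ, 0 < t →
      (∀ y ∈ ball x r, t ≤ u y) → ∀ y ∈ ball x (2 * r), δ * t ≤ u y)
    (hO : ∀ (x : Sp n) (r : ℝ), 0 < r → ball x r ⊆ G → ∀ a b : ℝ,
      (∀ y ∈ ball x r, a ≤ u y ∧ u y ≤ b) →
      ∀ y ∈ ball x (κ * r), ∀ z ∈ ball x (κ * r), u y - u z ≤ δ / 2 * (b - a))
    (y : Sp n) (r : ℝ) (hr : 0 < r) (hK : ball y ((16 * L + 16) * r) ⊆ G) :
    ∀ x ∈ ball y (2 * r), 1 / 2 * (κ / 8) ^ b * u y ≤ u x := by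
  intro x hx
  set R : ℝ := 2 * r with hR
  have hR0 : 0 < R := by positivity
  have hcl : closedBall y R ⊆ G := by
    refine (closedBall_subset_ball ?_).trans hK
    rw [hR]; nlinarith
  have hyG : y ∈ G := hcl (mem_closedBall_self hR0.le)
  have hxG : x ∈ G := hcl (ball_subset_closedBall hx)
  rcases (hu0 y hyG).eq_or_lt with h0 | hy0
  · rw [← h0, mul_zero]; exact hu0 x hxG
  -- the auxiliary function
  have hg : ContinuousOn (fun x => u x * (1 - dist x y / R) ^ b) (closedBall y R) := by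
    refine (hu.mono hcl).mul (Continuous.continuousOn ?_)
    exact Continuous.rpow_const (by fun_prop) (fun _ => Or.inr hb.le)
  obtain ⟨xb, hxb, hmax⟩ := (isCompact_closedBall y R).exists_isMaxOn
    ⟨y, mem_closedBall_self hR0.le⟩ hg
  have hmax' : ∀ x ∈ closedBall y R, u x * (1 - dist x y / R) ^ b ≤
      u xb * (1 - dist xb y / R) ^ b := fun x hx => hmax hx
  set d : ℝ := dist xb y with hd
  have hdR : d ≤ R := hxb
  have hd0 : 0 ≤ d := dist_nonneg
  have hgy : u y ≤ u xb * (1 - d / R) ^ b := by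
    have := hmax' y (mem_closedBall_self hR0.le)
    simpa using this
  have hdlt : d < R := by
    rcases hdR.eq_or_lt with h | h
    · exfalso
      rw [h, div_self hR0.ne', sub_self, Real.zero_rpow hb.ne', mul_zero] at hgy
      linarith
    · exact h
  have hxbG : xb ∈ G := hcl hxb
  set ρ : ℝ := (R - d) / 2 with hρ
  have hρ0 : 0 < ρ := by rw [hρ]; linarith
  have hρR : ρ ≤ R / 2 := by rw [hρ]; linarith
  have hq : 1 - d / R = 2 * ρ / R := by
    rw [hρ]; field_simp
  have hqpos : 0 < 2 * ρ / R := by positivity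
  rw [hq] at hgy
  have hqb : 0 < (2 * ρ / R) ^ b := Real.rpow_pos_of_pos hqpos b
  have huxb : 0 < u xb := by
    by_contra hcon
    have : u xb * (2 * ρ / R) ^ b ≤ 0 := mul_nonpos_of_nonpos_of_nonneg (not_lt.1 hcon) hqb.le
    linarith
  -- upper bound near `xb`
  have hup : ∀ z ∈ ball xb ρ, 0 ≤ u z ∧ u z ≤ u xb / δ := by
    intro z hz
    have hzd : dist z y ≤ R - ρ := by
      have h1 := dist_triangle z xb y
      have h2 : dist z xb < ρ := hz
      have h3 : d = R - 2 * ρ := by rw [hρ]; ring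
      rw [← hd] at h1
      linarith
    have hzcl : z ∈ closedBall y R := by
      rw [mem_closedBall]; linarith
    have hzG := hcl hzcl
    refine ⟨hu0 z hzG, ?_⟩
    have h1 := hmax' z hzcl
    rw [hq] at h1
    have h2 : ρ / R ≤ 1 - dist z y / R := by
      rw [div_le_iff₀ hR0, sub_mul, div_mul_cancel₀ _ hR0.ne']
      linarith
    have h3 : (ρ / R) ^ b ≤ (1 - dist z y / R) ^ b :=
      Real.rpow_le_rpow (by positivity) h2 hb.le
    have h4 : u z * (ρ / R) ^ b ≤ u xb * (2 * ρ / R) ^ b :=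
      (mul_le_mul_of_nonneg_left h3 (hu0 z hzG)).trans h1
    have h5 : (2 * ρ / R) ^ b = 1 / δ * (ρ / R) ^ b := by
      rw [← h2b, ← Real.mul_rpow (by norm_num) (by positivity)]
      congr 1
      ring
    rw [h5] at h4
    have h6 : 0 < (ρ / R) ^ b := Real.rpow_pos_of_pos (by positivity) b
    have h7 : u z * (ρ / R) ^ b ≤ (u xb / δ) * (ρ / R) ^ b := by
      refine h4.trans (le_of_eq ?_)
      ring
    exact le_of_mul_le_mul_right h7 h6
  have hsubρ : ball xb ρ ⊆ G := by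
    refine (ball_subset_ball' ?_).trans ((ball_subset_closedBall).trans hcl)
    have h3 : d = R - 2 * ρ := by rw [hρ]; ring
    rw [← hd, h3]
    linarith
  have hosc := hO xb ρ hρ0 hsubρ 0 (u xb / δ) hup
  set r0 : ℝ := κ * ρ with hr0
  have hr0p : 0 < r0 := by positivity
  have hlow : ∀ z ∈ ball xb r0, u xb / 2 ≤ u z := by
    intro z hz
    have h1 := hosc xb (mem_ball_self hr0p) z hz
    have h2 : δ / 2 * (u xb / δ - 0) = u xb / 2 := by field_simp; ring
    rw [h2] at h1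
    linarith
  -- number of steps
  have hr0R : r0 ≤ R / 2 := by
    rw [hr0]; nlinarith
  obtain ⟨m, hm1, hm2⟩ := exists_nat_pow_near (x := 2 * R / r0) (y := 2)
    (by rw [le_div_iff₀ hr0p]; linarith) (by norm_num)
  rw [le_div_iff₀ hr0p] at hm1
  rw [div_lt_iff₀ hr0p] at hm2
  have hk1 : (2 : ℝ) ^ (m + 1) * r0 ≤ 4 * R := by rw [pow_succ]; linarith
  have hbig : ball xb (L * (2 ^ (m + 1) * r0)) ⊆ G := by
    refine (ball_subset_ball' ?_).trans hK
    rw [← hd]
    have h1 : L * (2 ^ (m + 1) * r0) ≤ L * (4 * R) :=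
      mul_le_mul_of_nonneg_left hk1 (by linarith)
    rw [hR] at h1 hdlt
    nlinarith
  have hchain := HAR_chain hL hδ hE xb r0 (u xb / 2) hr0p (by positivity) hlow (m + 1) hbig x (by
    rw [mem_ball]
    have h1 := dist_triangle x y xb
    rw [dist_comm y xb, ← hd] at h1
    have h2 : dist x y < R := hx
    linarith)
  refine le_trans ?_ hchain
  -- comparison of the constants
  have hδk : (r0 / (4 * R)) ^ b ≤ δ ^ (m + 1) := by
    have e1 : δ = (1 / 2 : ℝ) ^ b := by
      rw [one_div, Real.inv_rpow (by norm_num), h2b, one_div, inv_inv]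
    have e2 : δ ^ (m + 1) = ((1 / 2 : ℝ) ^ (m + 1)) ^ b := by
      rw [e1, ← Real.rpow_natCast, ← Real.rpow_natCast, ← Real.rpow_mul (by norm_num),
        ← Real.rpow_mul (by norm_num), mul_comm]
    rw [e2]
    refine Real.rpow_le_rpow (by positivity) ?_ hb.le
    rw [div_le_iff₀ (by positivity), one_div, inv_pow, inv_mul_eq_div, le_div_iff₀ (by positivity)]
    linarith
  have e3 : (κ / 8) ^ b * (2 * ρ / R) ^ b = (r0 / (4 * R)) ^ b := by
    rw [← Real.mul_rpow (by positivity) (by positivity)]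
    congr 1
    rw [hr0]
    field_simp
    ring
  have hκb : 0 ≤ (κ / 8) ^ b := Real.rpow_nonneg (by positivity) b
  calc 1 / 2 * (κ / 8) ^ b * u y ≤ 1 / 2 * (κ / 8) ^ b * (u xb * (2 * ρ / R) ^ b) :=
        mul_le_mul_of_nonneg_left hgy (by positivity)
    _ = (r0 / (4 * R)) ^ b * (u xb / 2) := by rw [← e3]; ring
    _ ≤ δ ^ (m + 1) * (u xb / 2) := mul_le_mul_of_nonneg_right hδk (by positivity)

theorem HAR_ok (hAPI : S_API) (hE : S_EXP) (hO : S_OSC) : S_HAR := by
  intro n p μ A hgood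
  obtain ⟨L, δ, hL, hδ, hδ1, hexp⟩ := hE n p μ A hgood
  obtain ⟨κ, hκ, hκ1, hosc⟩ := hO n p μ A hgood (δ / 2) (by positivity)
  set b : ℝ := Real.logb 2 (1 / δ) with hbdef
  have h1δ : 1 < 1 / δ := by rw [lt_div_iff₀ hδ]; linarith
  have hb : 0 < b := Real.logb_pos (by norm_num) h1δ
  have h2b : (2 : ℝ) ^ b = 1 / δ := Real.rpow_logb (by norm_num) (by norm_num) (by positivity)
  set c : ℝ := 1 / 2 * (κ / 8) ^ b with hc
  have hc0 : 0 < c := by
    have : 0 < (κ / 8) ^ b := Real.rpow_pos_of_pos (by positivity) b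
    positivity
  have hc1 : c ≤ 1 := by
    have : (κ / 8) ^ b ≤ 1 := Real.rpow_le_one (by positivity) (by linarith) hb.le
    rw [hc]; linarith
  refine ⟨16 * L + 16 + 1, 1 / c, by linarith, by rw [le_div_iff₀ hc0]; linarith, ?_⟩
  intro G hG u hu hu0 x r hr hsub y hy z hz
  have hSup : SupC A p μ G u := (hAPI n p μ A hgood G hG u hu).2.2.2.2.2
  have hK : ball y ((16 * L + 16) * r) ⊆ G := by
    refine (ball_subset_ball' ?_).trans hsub
    have h2 : dist y x < r := hy
    nlinarith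
  have h1 := HAR_core hu.1 hu0 hL hδ hκ hκ1 hb h2b (hexp G hG u hSup hu0) (hosc G hG u hu) y r hr hK z
    (by
      rw [mem_ball]
      have h1 := dist_triangle z x y
      have h2 : dist y x < r := hy
      have h3 : dist z x < r := hz
      rw [dist_comm x y] at h1
      linarith)
  rw [← hc] at h1
  rw [div_mul_eq_mul_div, le_div_iff₀ hc0, one_mul]
  linarith

end Pool.Agent.H889R2.OM
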