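import Pool.Agent.H889R2.OM.LocA
open MeasureTheory Filter Topology Set Metric
open scoped ENNReal NNReal RealInnerProductSpace

set_option autoImplicit false

namespace Pool.Agent.H889R2.OM

open Pool.Agent.Helper533.Polar

variable {n : ℕ}

/-- from a potential to a normalised one -/
theorem Pot.np {p : ℝ} {μ : Measure (Sp n)} {A : Sp n → Sp n → Sp n} (hg : Good p μ A)
    (hAPS : S_APS) {y a : Sp n} {R s δ : ℝ} {ω : Sp n → ℝ} (h : Pot A p μ y R a s ω)
    (hsub : closedBall a s ⊆ closedBall y δ) {k : ℝ} (hk : 0 ≤ k) :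
    NP A p μ y R δ (fun x => k * ω x) where
  cont := continuous_const.mul h.cont
  nonneg x := mul_nonneg hk (h.nonneg x)
  out x hx := by rw [h.out x hx, mul_zero]
  sup := (hAPS n p μ A hg _ isOpen_ball ω h.sup).2.1 k hk
  harm := by
    have h1 := (API_ok n p μ A hg _ (isOpen_ball.sdiff isClosed_closedBall) ω h.harm).1 k
    exact (API_ok n p μ A hg _ (isOpen_ball.sdiff isClosed_closedBall) _ h1).2.2.2.1 _
      (open_diff y R δ) (sdiff_subset_sdiff_right hsub)

/-- the potential of a small ball is less than one away from it -/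
theorem LOC_pot_lt (hn : 2 ≤ n) (hPOS : S_POS) {p : ℝ} {μ : Measure (Sp n)}
    {A : Sp n → Sp n → Sp n} (hg : Good p μ A) {y : Sp n} {R s : ℝ} (hs : 0 < s) (hsR : s < R)
    {P : Sp n → ℝ} (hP : Pot A p μ y R y s P) {z : Sp n} (hz1 : s < dist z y)
    (hz2 : dist z y < R) : P z < 1 := by
  have hset : ball y R \ closedBall y s = {z : Sp n | s < dist z y ∧ dist z y < R} := by
    ext z
    rw [Set.mem_sdiff, mem_ball, mem_closedBall, not_le]
    exact and_comm
  have hop := open_diff y R s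
  have hconn : IsPreconnected (ball y R \ closedBall y s) := by
    rw [hset]
    exact annulus_preconnected hn y hs.le
  have h1 := (API_ok n p μ A hg _ hop P hP.harm).2.2.1 1
  have h2 := (API_ok n p μ A hg _ hop _ h1).2.2.2.2.2
  -- a point near the boundary sphere where P is small
  haveI : Nontrivial (Sp n) := by
    haveI : Nonempty (Fin n) := ⟨⟨0, by omega⟩⟩
    infer_instance
  obtain ⟨e, he⟩ : ∃ e : Sp n, ‖e‖ = 1 :=
    ⟨EuclideanSpace.single ⟨0, by omega⟩ (1 : ℝ), by simp⟩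
  have hR0 : 0 < R := hs.trans hsR
  have hd : ∀ t : ℝ, 0 ≤ t → dist (y + t • e) y = t := by
    intro t ht
    rw [dist_eq_norm, add_sub_cancel_left, norm_smul, he, mul_one, Real.norm_of_nonneg ht]
  have hPR : P (y + R • e) = 0 := hP.out _ (by
    rw [mem_ball, hd R hR0.le]
    exact lt_irrefl _)
  have hcont : Continuous fun t : ℝ => P (y + t • e) :=
    hP.cont.comp (continuous_const.add (continuous_id.smul continuous_const))
  have hev : ∀ᶠ t in 𝓝 R, P (y + t • e) < 1 := by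
    have h3 : P (y + R • e) < 1 := by
      rw [hPR]
      exact one_pos
    exact hcont.continuousAt.eventually (gt_mem_nhds h3)
  have hev2 : ∀ᶠ t in 𝓝[<] R, P (y + t • e) < 1 := hev.filter_mono nhdsWithin_le_nhds
  have hev3 : ∀ᶠ t in 𝓝[<] R, t ∈ Ioo s R := Ioo_mem_nhdsLT hsR
  obtain ⟨t, ht1, ht2⟩ := (hev2.and hev3).exists
  have ht0 : 0 ≤ t := hs.le.trans ht2.1.le
  have h4 := hPOS n p μ A hg _ hop hconn _ h2
    (fun x _ => sub_nonneg.2 (hP.le_one x))
    ⟨y + t • e, by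
      rw [hset]
      rw [Set.mem_ofPred_eq, hd t ht0]
      exact ht2, sub_pos.2 ht1⟩ z (by
      rw [hset]
      exact ⟨hz1, hz2⟩)
  linarith

theorem LOC_ok (hAPS : S_APS) (hO : S_OSC) (hH : S_HAR) (hPOS : S_POS) (hSPH : S_SPH)
    (hCMP : S_CMP) (hPOT : S_POT) : S_LOC := by
  intro n hn p μs μ As A hgs hg Ω f hΩ hf x₀ hx₀ hne r hr hrΩ
  by_contra hno
  haveI : Nontrivial (Sp n) := by
    haveI : Nonempty (Fin n) := ⟨⟨0, by omega⟩⟩
    infer_instance
  obtain ⟨y, hy⟩ : ∃ y, y = f x₀ := ⟨_, rfl⟩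
  rw [← hy] at hno hne
  obtain ⟨F, hF⟩ : ∃ F, F = f '' closedBall x₀ r := ⟨_, rfl⟩
  rw [← hF] at hno
  have hFc : IsCompact F := by
    rw [hF]
    exact (isCompact_closedBall x₀ r).image_of_continuousOn (hf.cont.mono hrΩ)
  have hyF : y ∈ F := by
    rw [hF, hy]
    exact ⟨x₀, mem_closedBall_self hr.le, rfl⟩
  obtain ⟨R, hR0, hFR⟩ : ∃ R : ℝ, 0 < R ∧ F ⊆ ball y R := by
    obtain ⟨R, hR⟩ := hFc.isBounded.subset_ball y
    exact ⟨max R 1, lt_max_of_lt_right one_pos, hR.trans (ball_subset_ball (le_max_left _ _))⟩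
  obtain ⟨Ls, Cs, hLs, hCs, hHar⟩ := hH n p μs As hgs
  obtain ⟨C, hC1, hC⟩ := hSPH n hn p μ A hg
  have hLs0 : 0 < Ls := by linarith
  have hCs0 : 0 < Cs := by linarith
  have hC0 : 0 < C := by linarith
  obtain ⟨r1, hr1⟩ : ∃ r1, r1 = r / Ls := ⟨_, rfl⟩
  have hr10 : 0 < r1 := by rw [hr1]; positivity
  have hr1r : Ls * r1 = r := by rw [hr1]; field_simp
  have hr1le : r1 ≤ r := by rw [hr1]; exact div_le_self hr.le hLs
  obtain ⟨r4, hr4⟩ : ∃ r4, r4 = r1 / 2 / Ls := ⟨_, rfl⟩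
  have hr40 : 0 < r4 := by rw [hr4]; positivity
  have hr4r : Ls * r4 = r1 / 2 := by rw [hr4]; field_simp
  have hr4le : r4 ≤ r1 / 2 := by rw [hr4]; exact div_le_self (by positivity) hLs
  obtain ⟨x₁, hx₁, hx₁Ω, hx₁y⟩ := hne r4 hr40
  have hx₁r : x₁ ∈ closedBall x₀ r := by
    rw [mem_closedBall]
    rw [mem_ball] at hx₁
    linarith
  obtain ⟨z₁, hz₁⟩ : ∃ z₁, z₁ = f x₁ := ⟨_, rfl⟩
  rw [← hz₁] at hx₁y
  have hz₁F : z₁ ∈ F := by
    rw [hF, hz₁]
    exact ⟨x₁, hx₁r, rfl⟩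
  obtain ⟨d, hd⟩ : ∃ d, d = dist z₁ y := ⟨_, rfl⟩
  have hd0 : 0 < d := by rw [hd]; exact dist_pos.2 hx₁y
  have hdR : d < R := by rw [hd]; exact hFR hz₁F
  -- the potential of a ball of radius d / 2
  obtain ⟨P, hP⟩ := hPOT n (by omega) p μ A hg y R y (d / 2) (by positivity)
    (closedBall_subset_ball (by linarith))
  have hPlt : P z₁ < 1 := LOC_pot_lt hn hPOS hg (by positivity) (by linarith) hP
    (by rw [← hd]; linarith) (by rw [← hd]; exact hdR)
  obtain ⟨q, hq⟩ : ∃ q, q = P z₁ := ⟨_, rfl⟩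
  rw [← hq] at hPlt
  -- the small constants
  obtain ⟨g, hg'⟩ : ∃ g, g = (1 - q) / 2 := ⟨_, rfl⟩
  have hg0 : 0 < g := by rw [hg']; linarith
  obtain ⟨e, he⟩ : ∃ e, e = g / (2 * Cs * (1 + Cs)) := ⟨_, rfl⟩
  have he0 : 0 < e := by rw [he]; positivity
  obtain ⟨κ, hκ0, hκ1, hosc⟩ := hO n p μs As hgs e he0
  -- bound for normalised potentials and number of scales
  obtain ⟨I, hI1, hI2⟩ : ∃ I : ℕ, 1 ≤ I ∧ C * (C * Cs / I) * (1 + Cs) ≤ g / 2 := by
    obtain ⟨I, hI⟩ := exists_nat_gt (2 * C * (C * Cs) * (1 + Cs) / g)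
    have hX : 0 < 2 * C * (C * Cs) * (1 + Cs) / g := by positivity
    have hI0 : (0 : ℝ) < I := hX.trans hI
    refine ⟨I, by exact_mod_cast hI0, ?_⟩
    rw [div_lt_iff₀ hg0] at hI
    have : C * (C * Cs / I) * (1 + Cs) = C * (C * Cs) * (1 + Cs) / I := by ring
    rw [this, div_le_iff₀ hI0]
    nlinarith
  -- a finite net
  obtain ⟨t, ht1, ht2⟩ : ∃ t : Set (Sp n), t.Finite ∧ t ⊆ closedBall x₀ (r1 / 2) ∧
      closedBall x₀ (r1 / 2) ⊆ ⋃ x ∈ t, ball x (κ * (r1 / 2)) := by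
    obtain ⟨t, h1, h2, h3⟩ := (isCompact_closedBall x₀ (r1 / 2)).finite_cover_balls
      (e := κ * (r1 / 2)) (by positivity)
    exact ⟨t, h2, h1, h3⟩
  obtain ⟨ht2, ht3⟩ := ht2
  obtain ⟨ρ', hρ0, hρd, hρR, hρt⟩ : ∃ ρ' : ℝ, 0 < ρ' ∧ ρ' ≤ d / 4 ∧ 2 * ρ' ≤ R ∧
      ∀ x ∈ t, f x = y ∨ ρ' ≤ dist (f x) y := by
    have hex : ∃ c : ℝ, 0 < c ∧ ∀ x ∈ t, f x = y ∨ c ≤ dist (f x) y := by
      refine Set.Finite.induction_on t ht1 ⟨1, one_pos, fun x hx => absurd hx (notMem_empty x)⟩ ?_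
      intro x s hxs hsf ih
      obtain ⟨c, hc0, hc⟩ := ih
      by_cases hxy : f x = y
      · refine ⟨c, hc0, fun x' hx' => ?_⟩
        rcases mem_insert_iff.1 hx' with h | h
        · left
          rw [h]
          exact hxy
        · exact hc x' h
      · refine ⟨min c (dist (f x) y), lt_min hc0 (dist_pos.2 hxy), fun x' hx' => ?_⟩
        rcases mem_insert_iff.1 hx' with h | h
        · right
          rw [h]
          exact min_le_right _ _
        · rcases hc x' h with h1 | h1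
          · exact Or.inl h1
          · exact Or.inr ((min_le_left _ _).trans h1)
    obtain ⟨c, hc0, hc⟩ := hex
    refine ⟨min c (min (d / 4) (R / 2)), lt_min hc0 (lt_min (by positivity) (by positivity)),
      (min_le_right _ _).trans (min_le_left _ _), ?_, fun x hx => ?_⟩
    · have := (min_le_right c (min (d / 4) (R / 2))).trans (min_le_right _ _)
      linarith
    · rcases hc x hx with h1 | h1
      · exact Or.inl h1
      · exact Or.inr ((min_le_left _ _).trans h1)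
  -- the pole
  obtain ⟨δ, hδ⟩ : ∃ δ, δ = ρ' / (4 * 8 ^ I) := ⟨_, rfl⟩
  have hδ0 : 0 < δ := by rw [hδ]; positivity
  have h8 : (1 : ℝ) ≤ 8 ^ I := one_le_pow₀ (by norm_num)
  have hδρ : 4 * δ * 8 ^ I = ρ' := by
    rw [hδ]
    field_simp
  have hδ4 : 4 * δ ≤ ρ' := by
    have : 4 * δ * 1 ≤ 4 * δ * 8 ^ I := mul_le_mul_of_nonneg_left h8 (by positivity)
    linarith
  obtain ⟨y', hy'1, hy'2⟩ : ∃ y', y' ∉ F ∧ dist y' y < δ := by
    by_contra hcon
    push Not at hcon
    refine hno (Filter.mem_of_superset (ball_mem_nhds y hδ0) fun z hz => ?_)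
    by_contra hzF
    exact absurd (hcon z hzF) (not_le.2 hz)
  obtain ⟨s', hs'0, hs'1⟩ : ∃ s' : ℝ, 0 < s' ∧ closedBall y' s' ⊆ Fᶜ ∩ ball y δ := by
    have hop : IsOpen (Fᶜ ∩ ball y δ) := hFc.isClosed.isOpen_compl.inter isOpen_ball
    exact nhds_basis_closedBall.mem_iff.1 (hop.mem_nhds ⟨hy'1, hy'2⟩)
  have hδR : δ < R := by linarith
  have hsδ : closedBall y' s' ⊆ closedBall y δ := fun z hz => ball_subset_closedBall (hs'1 hz).2
  obtain ⟨ω, hω⟩ := hPOT n (by omega) p μ A hg y R y' s' hs'0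
    (fun z hz => ball_subset_ball hδR.le (hs'1 hz).2)
  have hωpos : 0 < ω z₁ := by
    refine hPOS n p μ A hg (ball y R) isOpen_ball (convex_ball y R).isPreconnected ω hω.sup
      (fun x _ => hω.nonneg x) ⟨y', ?_, ?_⟩ z₁ (hFR hz₁F)
    · exact ball_subset_ball hδR.le (hs'1 (mem_closedBall_self hs'0.le)).2
    · rw [hω.one y' (mem_closedBall_self (by positivity))]
      exact one_pos
  obtain ⟨w, hw⟩ : ∃ w : Sp n → ℝ, w = fun x => (ω z₁)⁻¹ * ω x := ⟨_, rfl⟩
  have hNP : NP A p μ y R δ w := by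
    rw [hw]
    exact hω.np hg hAPS hsδ (inv_nonneg.2 hωpos.le)
  have hwz : w z₁ = 1 := by
    rw [hw]
    exact inv_mul_cancel₀ hωpos.ne'
  -- the pull-back
  have hB : ball x₀ r ⊆ closedBall x₀ r := ball_subset_closedBall
  have hfF : ∀ x ∈ ball x₀ r, f x ∈ F := fun x hx => by
    rw [hF]
    exact ⟨x, hB hx, rfl⟩
  have hv : Hm As p μs (ball x₀ r) (fun x => w (f x)) := by
    have hop' : IsOpen (ball y R \ closedBall y' s') := isOpen_ball.sdiff isClosed_closedBall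
    have h1 : Hm A p μ (ball y R \ closedBall y' s') w := by
      rw [hw]
      exact (API_ok n p μ A hg _ hop' ω hω.harm).1 _
    have h2 := hf.pull _ hop' w h1
    have hop2 : IsOpen (Ω ∩ f ⁻¹' (ball y R \ closedBall y' s')) :=
      hf.cont.isOpen_inter_preimage hΩ hop'
    refine (API_ok n p μs As hgs _ hop2 _ h2).2.2.2.1 _ isOpen_ball fun x hx => ?_
    exact ⟨hrΩ (hB hx), hFR (hfF x hx), fun h3 => (hs'1 h3).1 (hfF x hx)⟩
  have hv0 : ∀ x ∈ ball x₀ r, 0 ≤ w (f x) := fun x _ => hNP.nonneg _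
  have hbd : ∀ x ∈ ball x₀ r1, w (f x) ≤ Cs := by
    intro x hx
    have h1 := hHar _ isOpen_ball _ hv hv0 x₀ r1 hr10 (by rw [hr1r]) x hx x₁
      (ball_subset_ball (by linarith) hx₁)
    rw [← hz₁, hwz, mul_one] at h1
    exact h1
  have hwy : w y ≤ Cs := by
    rw [hy]
    exact hbd x₀ (mem_ball_self hr10)
  -- bound on the spheres
  have hK : ∀ z, 2 * δ ≤ dist z y → w z ≤ C * Cs := by
    refine hNP.outer hCMP hg (by linarith) (by positivity) fun z hz => ?_
    -- Harnack on the sphere of radius 2 δ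
    have hR4 : 2 * (2 * δ) ≤ R := by linarith
    have h1 := hNP.sph' hg hC (ρ := 2 * δ) (by positivity) (le_refl _) hR4
    by_contra hcon
    push Not at hcon
    -- then w > Cs on the whole sphere
    have h2 : ∀ z', dist z' y = 2 * δ → w z / C ≤ w z' := by
      intro z' hz'
      rw [div_le_iff₀ hC0]
      have := h1 z z' hz hz'
      linarith [mul_comm C (w z')]
    have h3 := hNP.inner hCMP hAPS hg (ρ := 2 * δ) (by linarith) h2 y (by
      rw [dist_self]
      positivity)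
    have h4 : Cs < w z / C := by
      rw [lt_div_iff₀ hC0]
      linarith [mul_comm C Cs]
    linarith
  have hkey := hNP.key hn hCMP hAPS hg hC1 hC hI1 hρ0 hρR (by
    have : 2 * δ * 8 ^ I ≤ 4 * δ * 8 ^ I := by
      refine mul_le_mul_of_nonneg_right (by linarith) (by positivity)
    linarith) hδ0.le hK
  obtain ⟨ε₁, hε₁⟩ : ∃ ε₁, ε₁ = C * (C * Cs / I) := ⟨_, rfl⟩
  rw [← hε₁] at hkey hI2
  have hε₁0 : 0 ≤ ε₁ := by rw [hε₁]; positivity
  -- v is almost maximal at x₀
  have hmaxv : ∀ x ∈ ball x₀ (r1 / 2), w (f x) ≤ w y + ε₁ + e * Cs := by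
    intro x hx
    obtain ⟨xk, hxk⟩ : ∃ xk ∈ t, x ∈ ball xk (κ * (r1 / 2)) := by
      have := ht3 (ball_subset_closedBall hx)
      simpa using this
    obtain ⟨hxkt, hxk2⟩ := hxk
    have hsub : ball xk (r1 / 2) ⊆ ball x₀ r1 := by
      refine ball_subset_ball' ?_
      have := ht2 hxkt
      rw [mem_closedBall] at this
      linarith
    have h1 := hosc _ isOpen_ball _ hv xk (r1 / 2) (by positivity)
      (hsub.trans (ball_subset_ball hr1le)) 0 Cs
      (fun z hz => ⟨hNP.nonneg _, hbd z (hsub hz)⟩) x hxk2 xk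
      (mem_ball_self (by positivity))
    have h2 : w (f xk) ≤ w y + ε₁ := by
      rcases hρt xk hxkt with h3 | h3
      · rw [h3]
        linarith
      · exact hkey _ h3
    rw [sub_zero] at h1
    linarith
  -- Harnack for w y + ε - v
  have hup : w y ≤ 1 + Cs * (ε₁ + e * Cs) := by
    have h1 : Hm As p μs (ball x₀ (r1 / 2)) (fun x => (w y + ε₁ + e * Cs) - w (f x)) := by
      have h2 := (API_ok n p μs As hgs _ isOpen_ball _ hv).2.2.2.1 _ isOpen_ball
        (ball_subset_ball (by linarith : r1 / 2 ≤ r))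
      exact (API_ok n p μs As hgs _ isOpen_ball _ h2).2.2.1 _
    have h2 := hHar _ isOpen_ball _ h1 (fun x hx => sub_nonneg.2 (hmaxv x hx)) x₀ r4 hr40
      (by rw [hr4r]) x₁ hx₁ x₀ (mem_ball_self hr40)
    rw [← hz₁, hwz, ← hy] at h2
    have h3 : 0 ≤ e * Cs := by positivity
    have h4 : w y + ε₁ + e * Cs - w y = ε₁ + e * Cs := by ring
    rw [h4] at h2
    linarith
  -- comparison with P
  obtain ⟨M, hM⟩ : ∃ M, M = w y + ε₁ := ⟨_, rfl⟩
  have hM0 : 0 ≤ M := by rw [hM]; linarith [hNP.nonneg y]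
  have hcmpP : w z₁ ≤ M * P z₁ := by
    have hδd : δ ≤ d / 2 := by linarith
    have hsupP : SupC A p μ (ball y R \ closedBall y (d / 4)) (fun x => M * P x) := by
      have h1 := (hAPS n p μ A hg _ isOpen_ball P hP.sup).2.1 M hM0
      exact (hAPS n p μ A hg _ isOpen_ball _ h1).2.2 _ (open_diff y R (d / 4)) sdiff_subset
    refine hCMP n p μ A hg (ball y R \ closedBall y (d / 4)) (open_diff y R (d / 4))
      (closure_diff_compact y R (d / 4)) w (fun x => M * P x) hNP.cont.continuousOn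
      (continuous_const.mul hP.cont).continuousOn ?_ hsupP ?_ z₁ ⟨hFR hz₁F, ?_⟩
    · exact (API_ok n p μ A hg _ (open_diff y R δ) w hNP.harm).2.2.2.1 _ (open_diff y R (d / 4))
        (sdiff_subset_sdiff_right (closedBall_subset_closedBall (by linarith)))
    · intro x hx
      rcases frontier_diff hx with h2 | h2
      · rw [hNP.out x h2]
        exact mul_nonneg hM0 (hP.nonneg x)
      · have h3 : P x = 1 := hP.one x (by
          rw [mem_closedBall, h2]
          linarith)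
        rw [h3, mul_one, hM]
        exact hkey x (by rw [h2]; exact hρd)
    · rw [mem_closedBall, not_le, ← hd]
      linarith
  rw [hwz, ← hq, hM] at hcmpP
  -- final contradiction
  have he2 : e * Cs * (1 + Cs) = g / 2 := by
    rw [he]
    field_simp
  have hfin : w y + ε₁ ≤ 1 + g := by nlinarith
  have hq0 : 0 ≤ q := by rw [hq]; exact hP.nonneg _
  have : (w y + ε₁) * q ≤ (1 + g) * q := mul_le_mul_of_nonneg_right hfin hq0
  nlinarith

end Pool.Agent.H889R2.OM
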