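import Pool.Agent.H889R2.OM.Defs
open MeasureTheory Filter Topology Set Metric
open scoped ENNReal NNReal RealInnerProductSpace

set_option autoImplicit false
set_option linter.unusedVariables false

namespace Pool.Agent.H889R2.OM

open Pool.Agent.Helper533.Polar

theorem OSC_ok (hAPI : S_API) : S_OSC := by
  intro n p μ A hgood e he
  have hgood' := hgood
  obtain ⟨hp, hfin, hsm, α, β, Cd, θ, Cs, lam, Cp, hα, hβ, hA, hadm⟩ := hgood'
  have := hfin
  have hlam : 1 ≤ lam := hadm.one_le_lam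
  have hlam0 : 0 < lam := by linarith
  have h4 : (1 : ℝ) ≤ 4 * lam := by linarith
  obtain ⟨δ2, hδ0, hδ1, hDG⟩ := DG2 (n := n) (p := p) (α := α) (β := β) (Cd := Cd) (θ := θ)
    (Cs := Cs) (lam := lam) (Cp := Cp) hp hα hβ (γ := 1 / 2) (by norm_num)
  -- the lower bound for supersolutions
  have lower : ∀ (x : Sp n) (r : ℝ), 0 < r → ∀ w : Sp n → ℝ, SupC A p μ (ball x r) w →
      (∀ y ∈ ball x r, 0 ≤ w y) → ∀ t : ℝ, 0 < t →
      1 / 2 * μ.real (ball x (r / (2 * lam))) ≤
        μ.real {y | y ∈ ball x (r / (2 * lam)) ∧ t ≤ w y} →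
      ∀ y ∈ ball x (r / (4 * lam)), δ2 * t ≤ w y := by
    intro x r hr w hw hw0 t ht hm
    obtain ⟨hwc, S, hS⟩ := hw
    have hr'0 : 0 < r / (2 * lam) := by positivity
    have hball : ball x (2 * lam * (r / (2 * lam))) ⊆ ball x r := by
      have : 2 * lam * (r / (2 * lam)) = r := by field_simp
      rw [this]
    have hhalf : r / (2 * lam) / 2 = r / (4 * lam) := by field_simp; norm_num
    have h1 := hDG μ A hA hadm (ball x r) isOpen_ball w S hS
      (Filter.Eventually.of_forall fun y hy => hw0 y hy) x (r / (2 * lam)) hr'0 hball t ht hm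
    rw [hhalf] at h1
    have hsub : ball x (r / (4 * lam)) ⊆ ball x r :=
      ball_subset_ball (div_le_self hr.le h4)
    have h2 := nonneg_of_ae hadm.pos (isOpen_ball (x := x) (ε := r / (4 * lam)))
      (g := fun y => w y - δ2 * t) ((hwc.mono hsub).sub continuousOn_const) (by
        filter_upwards [h1] with y hy hyb
        have := hy hyb
        linarith)
    intro y hy
    have := h2 y hy
    linarith
  -- one step
  have step : ∀ (x : Sp n) (r : ℝ), 0 < r → ∀ u : Sp n → ℝ, Hm A p μ (ball x r) u →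
      ∀ a b : ℝ, (∀ y ∈ ball x r, a ≤ u y ∧ u y ≤ b) →
      ∃ a' b' : ℝ, a' ≤ b' ∧ b' - a' ≤ (1 - δ2 / 2) * (b - a) ∧
        ∀ y ∈ ball x (r / (4 * lam)), a' ≤ u y ∧ u y ≤ b' := by
    intro x r hr u hu a b hab
    have hsub : ball x (r / (4 * lam)) ⊆ ball x r :=
      ball_subset_ball (div_le_self hr.le h4)
    have hxx := hab x (mem_ball_self hr)
    have hle : a ≤ b := hxx.1.trans hxx.2
    rcases eq_or_lt_of_le hle with heq | hlt
    · refine ⟨a, b, hle, ?_, fun y hy => hab y (hsub hy)⟩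
      rw [heq]; simp
    obtain ⟨-, hadd, hcsub, -, -, -⟩ := hAPI n p μ A hgood (ball x r) isOpen_ball u hu
    set t : ℝ := (b - a) / 2 with ht
    have ht0 : 0 < t := by rw [ht]; linarith
    set r' : ℝ := r / (2 * lam) with hr'
    have hfb : μ (ball x r') < ∞ := hadm.fin x r'
    set E1 : Set (Sp n) := {y | y ∈ ball x r' ∧ t ≤ u y + (-a)} with hE1
    set E2 : Set (Sp n) := {y | y ∈ ball x r' ∧ t ≤ b - u y} with hE2
    have hsum : μ.real (ball x r') ≤ μ.real E1 + μ.real E2 := by
      have hsub2 : ball x r' ⊆ E1 ∪ E2 := by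
        intro y hy
        by_cases hc : t ≤ u y + (-a)
        · exact Or.inl ⟨hy, hc⟩
        · right
          refine ⟨hy, ?_⟩
          push Not at hc
          rw [ht] at hc ⊢
          linarith
      have hu' : μ (E1 ∪ E2) ≠ ∞ :=
        (lt_of_le_of_lt (measure_mono (by
          rintro y (hy | hy)
          · exact hy.1
          · exact hy.1)) hfb).ne
      calc μ.real (ball x r') ≤ μ.real (E1 ∪ E2) := measureReal_mono hsub2 hu'
        _ ≤ μ.real E1 + μ.real E2 := measureReal_union_le _ _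
    have hdich : 1 / 2 * μ.real (ball x r') ≤ μ.real E1 ∨
        1 / 2 * μ.real (ball x r') ≤ μ.real E2 := by
      by_contra hcon
      push Not at hcon
      linarith [hcon.1, hcon.2]
    rcases hdich with hc | hc
    · have hw := (hAPI n p μ A hgood (ball x r) isOpen_ball _ (hadd (-a))).2.2.2.2.2
      have h5 := lower x r hr _ hw (fun y hy => by have := (hab y hy).1; linarith) t ht0 hc
      refine ⟨a + δ2 * t, b, ?_, ?_, ?_⟩
      · rw [ht]; nlinarith
      · rw [ht]; nlinarith
      · intro y hy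
        have := h5 y hy
        exact ⟨by linarith, (hab y (hsub hy)).2⟩
    · have hw := (hAPI n p μ A hgood (ball x r) isOpen_ball _ (hcsub b)).2.2.2.2.2
      have h5 := lower x r hr _ hw (fun y hy => by have := (hab y hy).2; linarith) t ht0 hc
      refine ⟨a, b - δ2 * t, ?_, ?_, ?_⟩
      · rw [ht]; nlinarith
      · rw [ht]; nlinarith
      · intro y hy
        have := h5 y hy
        exact ⟨(hab y (hsub hy)).1, by linarith⟩
  obtain ⟨j, hj⟩ := exists_pow_lt_of_lt_one he (y := 1 - δ2 / 2) (by linarith)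
  refine ⟨((4 * lam) ^ j)⁻¹, by positivity, inv_le_one_of_one_le₀ (one_le_pow₀ h4), ?_⟩
  intro G hG u hu x r hr hrG a b hab
  have hu' : Hm A p μ (ball x r) u :=
    (hAPI n p μ A hgood G hG u hu).2.2.2.1 (ball x r) isOpen_ball hrG
  have key : ∀ j : ℕ, ∃ a' b' : ℝ, b' - a' ≤ (1 - δ2 / 2) ^ j * (b - a) ∧
      ∀ y ∈ ball x (r / (4 * lam) ^ j), a' ≤ u y ∧ u y ≤ b' := by
    intro j
    induction j with
    | zero => exact ⟨a, b, by simp, by simpa using hab⟩
    | succ j ih =>
      obtain ⟨a', b', h1, h2⟩ := ih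
      have hrj : 0 < r / (4 * lam) ^ j := by positivity
      have hsub : ball x (r / (4 * lam) ^ j) ⊆ ball x r :=
        ball_subset_ball (div_le_self hr.le (one_le_pow₀ h4))
      have hu2 : Hm A p μ (ball x (r / (4 * lam) ^ j)) u :=
        (hAPI n p μ A hgood _ isOpen_ball u hu').2.2.2.1 _ isOpen_ball hsub
      obtain ⟨a2, b2, -, h4', h5⟩ := step x _ hrj u hu2 a' b' h2
      refine ⟨a2, b2, ?_, ?_⟩
      · calc b2 - a2 ≤ (1 - δ2 / 2) * (b' - a') := h4'
          _ ≤ (1 - δ2 / 2) * ((1 - δ2 / 2) ^ j * (b - a)) :=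
            mul_le_mul_of_nonneg_left h1 (by linarith)
          _ = _ := by ring
      · rw [pow_succ, ← div_div]
        exact h5
  obtain ⟨a', b', h1, h2⟩ := key j
  have hba : 0 ≤ b - a := by
    have := hab x (mem_ball_self hr)
    linarith [this.1, this.2]
  have hrr : ((4 * lam) ^ j)⁻¹ * r = r / (4 * lam) ^ j := by
    rw [div_eq_inv_mul]
  intro y hy z hz
  rw [hrr] at hy hz
  have e1 := h2 y hy
  have e2 := h2 z hz
  have e3 : (1 - δ2 / 2) ^ j * (b - a) ≤ e * (b - a) := mul_le_mul_of_nonneg_right hj.le hba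
  linarith [e1.1, e1.2, e2.1, e2.2]

end Pool.Agent.H889R2.OM
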