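import Pool.Agent.H889R2.OM.Defs

/-!
# Pasting
-/

set_option autoImplicit false

open MeasureTheory Filter Topology Set Metric
open scoped ENNReal NNReal RealInnerProductSpace

namespace Pool.Agent.H889R2.OM

open Pool.Agent.Helper533.Polar

variable {n : ℕ}

/-- the constant supersolution -/
theorem PAS_const (hAPI : S_API) {p : ℝ} {μ : Measure (Sp n)} {A : Sp n → Sp n → Sp n}
    (hG : Good p μ A) {W : Set (Sp n)} (hW : IsOpen W) {h : Sp n → ℝ} (hh : Hm A p μ W h)
    (M : ℝ) : SupC A p μ W (fun _ => M) := by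
  have h1 := (hAPI n p μ A hG W hW h hh).1 0
  have h2 := (hAPI n p μ A hG W hW _ h1).2.1 M
  have h3 := (hAPI n p μ A hG W hW _ h2).2.2.2.2.1 (fun _ => M) (fun x _ => by simp)
  exact (hAPI n p μ A hG W hW _ h3).2.2.2.2.2

theorem PAS_ok (hAPI : S_API) (hC : S_CMP) : S_PAS := by
  intro n p μ A hGd G hG v M hv hvM hvH W hW hWc hWG h H hh hLH heq hfr
  have hHW : Hm A p μ W h := ⟨hh.mono subset_closure, H, hLH, heq⟩
  -- `h ≤ M` on `W`
  have h1 : ∀ x ∈ W, h x ≤ M :=
    hC n p μ A hGd W hW hWc h (fun _ => M) hh continuousOn_const hHW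
      (PAS_const hAPI hGd hW hHW M)
      (fun x hx => (hfr x hx).trans (hvM x (hWG (frontier_subset_closure hx))))
  -- the open set where `v < M`
  have hG'open : IsOpen {x | x ∈ G ∧ v x < M} := by
    have : {x | x ∈ G ∧ v x < M} = G ∩ v ⁻¹' (Iio M) := by
      ext x
      simp
    rw [this]
    exact hv.isOpen_inter_preimage hG isOpen_Iio
  have key : ∀ ε : ℝ, 0 < ε → ∀ x ∈ W, h x ≤ v x + ε := by
    intro ε hε
    have hvcl : ContinuousOn v (closure W) := hv.mono hWG
    have hd : ContinuousOn (fun x => h x - v x) (closure W) := hh.sub hvcl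
    set W' : Set (Sp n) := W ∩ (fun x => h x - v x) ⁻¹' (Ioi ε) with hW'
    have hW'open : IsOpen W' := (hd.mono subset_closure).isOpen_inter_preimage hW isOpen_Ioi
    have hmem : ∀ x, x ∈ W' ↔ x ∈ W ∧ ε < h x - v x := fun x => Iff.rfl
    have hcl1 : closure W' ⊆ closure W ∩ (fun x => h x - v x) ⁻¹' (Ici ε) := by
      have hclosed : IsClosed (closure W ∩ (fun x => h x - v x) ⁻¹' (Ici ε)) :=
        hd.preimage_isClosed_of_isClosed isClosed_closure isClosed_Ici
      refine closure_minimal ?_ hclosed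
      intro x hx
      have h3 : ε < h x - v x := hx.2
      exact ⟨subset_closure hx.1, h3.le⟩
    have hcl2 : closure W' ⊆ W := by
      intro x hx
      obtain ⟨hx1, hx2⟩ := hcl1 hx
      have hx2' : ε ≤ h x - v x := hx2
      by_contra hxW
      have hxf : x ∈ frontier W := by
        rw [hW.frontier_eq]
        exact ⟨hx1, hxW⟩
      have := hfr x hxf
      linarith
    have hW'G : W' ⊆ {x | x ∈ G ∧ v x < M} := by
      intro x hx
      refine ⟨hWG (subset_closure hx.1), ?_⟩
      have h2 := h1 x hx.1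
      have h3 : ε < h x - v x := hx.2
      linarith
    have hW'c : IsCompact (closure W') :=
      hWc.of_isClosed_subset isClosed_closure (hcl2.trans subset_closure)
    have hHv : Hm A p μ W' v :=
      (hAPI n p μ A hGd _ hG'open v hvH).2.2.2.1 W' hW'open hW'G
    have hHh : Hm A p μ W' h :=
      (hAPI n p μ A hGd _ hW h hHW).2.2.2.1 W' hW'open inter_subset_left
    have hHve : Hm A p μ W' (fun x => v x + ε) := (hAPI n p μ A hGd _ hW'open v hHv).2.1 ε
    have hS : SupC A p μ W' (fun x => v x + ε) :=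
      (hAPI n p μ A hGd _ hW'open _ hHve).2.2.2.2.2
    have hcmp := hC n p μ A hGd W' hW'open hW'c h (fun x => v x + ε)
      (hh.mono (hcl2.trans subset_closure))
      ((hvcl.mono (hcl2.trans subset_closure)).add continuousOn_const) hHh hS (by
        intro x hx
        rw [hW'open.frontier_eq] at hx
        have hxW : x ∈ W := hcl2 hx.1
        have h4 : ¬ (ε < h x - v x) := fun h5 => hx.2 ⟨hxW, h5⟩
        linarith)
    intro x hx
    by_contra hcon
    push Not at hcon
    have hxW' : x ∈ W' := ⟨hx, by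
      change ε < h x - v x
      linarith⟩
    have := hcmp x hxW'
    linarith
  intro x hx
  exact le_of_forall_pos_le_add fun ε hε => key ε hε x hx

end Pool.Agent.H889R2.OM
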