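import Pool.Agent.H889R2.OM.Defs
open MeasureTheory Filter Topology Set Metric
open scoped ENNReal NNReal RealInnerProductSpace

set_option autoImplicit false

namespace Pool.Agent.H889R2.OM

open Pool.Agent.Helper533.Polar

/-- iterated expansion of positivity -/
theorem POS_iter {n : ℕ} {L δ : ℝ} (hL : 1 ≤ L) (hδ0 : 0 < δ) {G : Set (Sp n)} {s : Sp n → ℝ}
    (hex : ∀ (x : Sp n) (r : ℝ), 0 < r → ball x (L * r) ⊆ G → ∀ t : ℝ, 0 < t →
      (∀ y ∈ ball x r, t ≤ s y) → ∀ y ∈ ball x (2 * r), δ * t ≤ s y)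
    (x : Sp n) (r0 R : ℝ) (h0 : 0 < r0) (t : ℝ) (ht : 0 < t) (hG : ball x (L * R) ⊆ G)
    (hpos : ∀ y ∈ ball x r0, t ≤ s y) :
    ∀ k : ℕ, (∀ j : ℕ, j < k → 2 ^ j * r0 ≤ R) → ∀ y ∈ ball x (2 ^ k * r0), δ ^ k * t ≤ s y := by
  intro k
  induction k with
  | zero =>
    intro _ y hy
    have hy' : y ∈ ball x r0 := by simpa using hy
    simpa using hpos y hy'
  | succ k ih =>
    intro hj y hy
    have h1 := ih (fun j hj' => hj j (by omega))
    have hle : L * (2 ^ k * r0) ≤ L * R :=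
      mul_le_mul_of_nonneg_left (hj k (by omega)) (by linarith)
    have e : (2 : ℝ) ^ (k + 1) * r0 = 2 * (2 ^ k * r0) := by ring
    rw [e] at hy
    have h2 := hex x (2 ^ k * r0) (by positivity) ((ball_subset_ball hle).trans hG) (δ ^ k * t)
      (by positivity) h1 y hy
    calc δ ^ (k + 1) * t = δ * (δ ^ k * t) := by ring
      _ ≤ _ := h2

theorem POS_ok (hE : S_EXP) : S_POS := by
  intro n p μ A hg G hG hGc s hs hnn hx0
  obtain ⟨L, δ, hL, hδ0, hδ1, hex0⟩ := hE n p μ A hg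
  have hex := hex0 G hG s hs hnn
  obtain ⟨x₀, hx₀G, hx₀⟩ := hx0
  intro x hx
  by_contra hcon
  have hS : IsOpen (G ∩ s ⁻¹' (Ioi 0)) := hs.1.isOpen_inter_preimage hG isOpen_Ioi
  have hT : IsOpen (G ∩ {y | s y ≤ 0}) := by
    rw [Metric.isOpen_iff]
    rintro z ⟨hzG, hz0⟩
    obtain ⟨R0, hR0, hball⟩ := Metric.isOpen_iff.1 hG z hzG
    have hLp : 0 < 2 * (L + 1) := by linarith
    have hr : 0 < R0 / (2 * (L + 1)) := div_pos hR0 hLp
    obtain ⟨r, hrdef⟩ : ∃ r : ℝ, r = R0 / (2 * (L + 1)) := ⟨_, rfl⟩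
    rw [← hrdef] at hr
    have hrR : (L + 1) * r = R0 / 2 := by
      rw [hrdef]; field_simp
    refine ⟨r, hr, ?_⟩
    intro x' hx'
    have hrle : r ≤ R0 := by nlinarith
    have hx'G : x' ∈ G := hball (ball_subset_ball hrle hx')
    refine ⟨hx'G, ?_⟩
    by_contra hneg
    have hpos' : 0 < s x' := lt_of_not_ge hneg
    have hcont : ContinuousAt s x' := hs.1.continuousAt (hG.mem_nhds hx'G)
    have hev : ∀ᶠ y in 𝓝 x', s x' / 2 < s y :=
      hcont.eventually (lt_mem_nhds (by linarith))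
    obtain ⟨r1, hr1, hb1⟩ := Metric.eventually_nhds_iff_ball.1 hev
    have hr'0 : 0 < min r1 r := lt_min hr1 hr
    obtain ⟨r', hr'def⟩ : ∃ r' : ℝ, r' = min r1 r := ⟨_, rfl⟩
    rw [← hr'def] at hr'0
    have hpos1 : ∀ y ∈ ball x' r', s x' / 2 ≤ s y := by
      intro y hy
      have : y ∈ ball x' r1 := ball_subset_ball (by rw [hr'def]; exact min_le_left _ _) hy
      exact (hb1 y this).le
    have hexk : ∃ k : ℕ, r < 2 ^ k * r' := by
      obtain ⟨k, hk⟩ := pow_unbounded_of_one_lt (r / r') (by norm_num : (1 : ℝ) < 2)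
      exact ⟨k, by rwa [div_lt_iff₀ hr'0] at hk⟩
    classical
    have hfind := Nat.find_spec hexk
    have hmin : ∀ j : ℕ, j < Nat.find hexk → 2 ^ j * r' ≤ r := by
      intro j hj
      exact le_of_not_gt (Nat.find_min hexk hj)
    have hdist : dist x' z < r := hx'
    have hsub : ball x' (L * r) ⊆ G := by
      refine Subset.trans ?_ hball
      apply ball_subset_ball'
      nlinarith
    have hfin := POS_iter hL hδ0 hex x' r' r hr'0 (s x' / 2) (by linarith) hsub hpos1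
      (Nat.find hexk) hmin z (by
        rw [mem_ball, dist_comm]; linarith)
    have : 0 < δ ^ (Nat.find hexk) * (s x' / 2) := by positivity
    have hz0' : s z ≤ 0 := hz0
    linarith
  have hcov : G ⊆ (G ∩ s ⁻¹' (Ioi 0)) ∪ (G ∩ {y | s y ≤ 0}) := by
    intro y hy
    rcases lt_or_ge 0 (s y) with h | h
    · exact Or.inl ⟨hy, h⟩
    · exact Or.inr ⟨hy, h⟩
  obtain ⟨y, hy, ⟨_, hy1⟩, ⟨_, hy2⟩⟩ := hGc _ _ hS hT hcov ⟨x₀, hx₀G, hx₀G, hx₀⟩
    ⟨x, hx, hx, le_of_not_gt hcon⟩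
  have h1 : 0 < s y := hy1
  have h2 : s y ≤ 0 := hy2
  linarith

end Pool.Agent.H889R2.OM
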