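import Pool.Agent.H889R2.OM.Defs
open MeasureTheory Filter Topology Set Metric
open scoped ENNReal NNReal RealInnerProductSpace

set_option autoImplicit false

namespace Pool.Agent.H889R2.OM

open Pool.Agent.Helper533.Polar

variable {n : ℕ}

theorem deriv_smoothTransition_bdd : ∃ C : ℝ, 0 < C ∧ ∀ t, |deriv Real.smoothTransition t| ≤ C := by
  have h1 : Continuous (deriv Real.smoothTransition) :=
    (Real.smoothTransition.contDiff (n := 1)).continuous_deriv le_rfl
  obtain ⟨C, hC⟩ := (isCompact_Icc (a := (0 : ℝ)) (b := 1)).exists_bound_of_continuousOn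
    h1.continuousOn
  refine ⟨max C 1, lt_max_of_lt_right one_pos, fun t => ?_⟩
  by_cases ht : t ∈ Icc (0 : ℝ) 1
  · exact (hC t ht).trans (le_max_left _ _)
  · have h0 : deriv Real.smoothTransition t = 0 := by
      rcases lt_or_ge t 0 with h | h
      · have : Real.smoothTransition =ᶠ[𝓝 t] fun _ => (0 : ℝ) := by
          filter_upwards [gt_mem_nhds h] with s hs
          exact Real.smoothTransition.zero_of_nonpos hs.le
        rw [this.deriv_eq, deriv_const]
      · have h' : 1 < t := by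
          by_contra hcon
          exact ht ⟨h, not_lt.1 hcon⟩
        have : Real.smoothTransition =ᶠ[𝓝 t] fun _ => (1 : ℝ) := by
          filter_upwards [lt_mem_nhds h'] with s hs
          exact Real.smoothTransition.one_of_one_le hs.le
        rw [this.deriv_eq, deriv_const]
    rw [h0, abs_zero]
    exact le_max_of_le_right zero_le_one

theorem eLp_le_of_int {F : Type*} [NormedAddCommGroup F] {p : ℝ} (hp : 1 < p)
    {μ : Measure (Sp n)} {f : Sp n → F} (hf : MemLp f (ENNReal.ofReal p) μ) {κ : ℝ} (hκ : 0 ≤ κ)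
    (h : ∫ x, ‖f x‖ ^ p ∂μ ≤ κ ^ p) : eLpNorm f (ENNReal.ofReal p) μ ≤ ENNReal.ofReal κ := by
  have hp0 : 0 < p := by linarith
  rw [MemLp.eLpNorm_eq_integral_rpow_norm (ENNReal.ofReal_pos.2 hp0).ne' ENNReal.ofReal_ne_top hf,
    ENNReal.toReal_ofReal hp0.le]
  refine ENNReal.ofReal_le_ofReal ?_
  have h1 : 0 ≤ ∫ x, ‖f x‖ ^ p ∂μ := integral_nonneg fun x => by positivity
  calc (∫ x, ‖f x‖ ^ p ∂μ) ^ p⁻¹ ≤ (κ ^ p) ^ p⁻¹ :=
        Real.rpow_le_rpow h1 h (by positivity)
    _ = κ := by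
        rw [← Real.rpow_mul hκ, mul_inv_cancel₀ hp0.ne', Real.rpow_one]

theorem capNull_of_point {p : ℝ} {μ : Measure (Sp n)} {Cd θ Cs lam Cp : ℝ} (hp : 1 < p)
    [IsFiniteMeasureOnCompacts μ] (hadm : Adm p μ Cd θ Cs lam Cp) {y : Sp n} {r : ℝ} (hr : 0 < r)
    (h : ∀ ε : ℝ, 0 < ε → ∃ φ : Sp n → ℝ, Cc (ball y r) φ ∧ 1 ≤ φ y ∧
      ∫ x, ‖gradient φ x‖ ^ p ∂μ < ε) : CapNull p μ {y} {y} := by
  intro N hN hyN κ hκ
  have hp0 : 0 < p := by linarith
  obtain ⟨C, hC0, hC⟩ := deriv_smoothTransition_bdd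
  have hCs := hadm.Cs_pos
  obtain ⟨K, hK0, hK1, hK2⟩ : ∃ K : ℝ, 0 < K ∧ (2 * C) ^ p ≤ K ∧
      Cs * r ^ p * (2 * C) ^ p ≤ K := by
    refine ⟨max ((2 * C) ^ p) (Cs * r ^ p * (2 * C) ^ p), lt_max_of_lt_left (by positivity),
      le_max_left _ _, le_max_right _ _⟩
  obtain ⟨ε, hε⟩ : ∃ ε, ε = κ ^ p / K := ⟨_, rfl⟩
  have hκp : 0 < κ ^ p := Real.rpow_pos_of_pos hκ p
  have hε0 : 0 < ε := by rw [hε]; positivity
  obtain ⟨φ, hφ, hφy, hφi⟩ := h ε hε0
  have hsm : ContDiff ℝ (⊤ : ℕ∞) (fun t : ℝ => Real.smoothTransition (2 * t)) :=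
    Real.smoothTransition.contDiff.comp (contDiff_const.mul contDiff_id)
  have hψ : Cc (ball y r) (fun x => Real.smoothTransition (2 * φ x)) :=
    hφ.comp_fun (β := fun t => Real.smoothTransition (2 * t)) hsm (by
      simp [Real.smoothTransition.zero])
  have hint : Integrable (fun x => ‖gradient φ x‖ ^ p) μ := by
    have := (hφ.memLp_grad (μ := μ) (ENNReal.ofReal p)).integrable_norm_rpow
      (ENNReal.ofReal_pos.2 hp0).ne' ENNReal.ofReal_ne_top
    rwa [ENNReal.toReal_ofReal hp0.le] at this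
  have hint' : Integrable (fun x => ‖gradient (fun x => Real.smoothTransition (2 * φ x)) x‖ ^ p) μ := by
    have := (hψ.memLp_grad (μ := μ) (ENNReal.ofReal p)).integrable_norm_rpow
      (ENNReal.ofReal_pos.2 hp0).ne' ENNReal.ofReal_ne_top
    rwa [ENNReal.toReal_ofReal hp0.le] at this
  have hgr : ∀ x, ‖gradient (fun x => Real.smoothTransition (2 * φ x)) x‖ ≤
      2 * C * ‖gradient φ x‖ := by
    intro x
    have h1 := grad_comp (β := fun t : ℝ => Real.smoothTransition (2 * t)) (hφ.diff x)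
      ((hsm.differentiable (by simp)) _)
    rw [h1, norm_smul]
    refine mul_le_mul_of_nonneg_right ?_ (norm_nonneg _)
    have h2 : deriv (fun t : ℝ => Real.smoothTransition (2 * t)) (φ x) =
        2 * deriv Real.smoothTransition (2 * φ x) := by
      have h3 : HasDerivAt Real.smoothTransition (deriv Real.smoothTransition (2 * φ x))
          (2 * φ x) := (((Real.smoothTransition.contDiff (n := 1)).differentiable
            (by simp)) _).hasDerivAt
      have h4 : HasDerivAt (fun t : ℝ => 2 * t) 2 (φ x) := by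
        simpa using (hasDerivAt_id (φ x)).const_mul (2 : ℝ)
      have h5 := HasDerivAt.comp (φ x) h3 h4
      rw [mul_comm]
      exact h5.deriv
    rw [h2, Real.norm_eq_abs, abs_mul, abs_of_pos (by norm_num : (0 : ℝ) < 2)]
    have := hC (2 * φ x)
    linarith
  have hI1 : ∫ x, ‖gradient (fun x => Real.smoothTransition (2 * φ x)) x‖ ^ p ∂μ ≤
      (2 * C) ^ p * ε := by
    calc ∫ x, ‖gradient (fun x => Real.smoothTransition (2 * φ x)) x‖ ^ p ∂μ
        ≤ ∫ x, (2 * C) ^ p * ‖gradient φ x‖ ^ p ∂μ := by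
          refine integral_mono hint' (hint.const_mul _) fun x => ?_
          simp only
          rw [← Real.mul_rpow (by positivity) (norm_nonneg _)]
          exact Real.rpow_le_rpow (norm_nonneg _) (hgr x) hp0.le
      _ = (2 * C) ^ p * ∫ x, ‖gradient φ x‖ ^ p ∂μ := integral_const_mul _ _
      _ ≤ (2 * C) ^ p * ε := mul_le_mul_of_nonneg_left hφi.le (by positivity)
  have hKε : K * ε = κ ^ p := by
    rw [hε]
    field_simp
  refine ⟨N ∩ {x | 1 / 2 < φ x}, fun x => Real.smoothTransition (2 * φ x),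
    gradient (fun x => Real.smoothTransition (2 * φ x)), ?_, ?_, inter_subset_left, ?_, ?_, ?_, ?_,
    ?_⟩
  · exact hN.inter (isOpen_lt continuous_const hφ.cont)
  · rintro x ⟨hx, -⟩
    rw [mem_singleton_iff] at hx
    subst hx
    refine ⟨hyN rfl, ?_⟩
    show 1 / 2 < φ x
    linarith
  · exact (H0.of_Cc hψ).mono (subset_univ _)
  · exact Filter.Eventually.of_forall fun x =>
      ⟨Real.smoothTransition.nonneg _, Real.smoothTransition.le_one _⟩
  · refine Filter.Eventually.of_forall fun x hx => ?_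
    have h1 : 1 / 2 < φ x := hx.2
    exact Real.smoothTransition.one_of_one_le (by linarith)
  · refine eLp_le_of_int hp (hψ.memLp _) hκ.le ?_
    have h1 := hadm.sob y r hr _ _ (H0.of_Cc (p := p) (μ := μ) hψ)
    simp only [Real.norm_eq_abs]
    refine h1.trans ?_
    have hm : μ.real {z | (fun x => Real.smoothTransition (2 * φ x)) z ≠ 0} ≤
        μ.real (ball y r) := by
      refine measureReal_mono ?_ (hadm.fin y r).ne
      intro z hz
      by_contra hcon
      exact hz (zero_of_notMem fun h2 => hcon (hψ.supp h2))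
    have hmB : 0 < μ.real (ball y r) := ENNReal.toReal_pos (hadm.pos y r hr).ne' (hadm.fin y r).ne
    have h2 : (μ.real {z | (fun x => Real.smoothTransition (2 * φ x)) z ≠ 0} /
        μ.real (ball y r)) ^ θ ≤ 1 := by
      refine Real.rpow_le_one (by positivity) ?_ hadm.theta_pos.le
      rw [div_le_one hmB]
      exact hm
    have h0 : 0 ≤ (μ.real {z | (fun x => Real.smoothTransition (2 * φ x)) z ≠ 0} /
        μ.real (ball y r)) ^ θ := by positivity
    have hrp : 0 < r ^ p := Real.rpow_pos_of_pos hr p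
    have hI0 : 0 ≤ ∫ x, ‖gradient (fun x => Real.smoothTransition (2 * φ x)) x‖ ^ p ∂μ :=
      integral_nonneg fun x => by positivity
    calc Cs * r ^ p * (μ.real {z | (fun x => Real.smoothTransition (2 * φ x)) z ≠ 0} /
          μ.real (ball y r)) ^ θ *
          ∫ x, ‖gradient (fun x => Real.smoothTransition (2 * φ x)) x‖ ^ p ∂μ
        ≤ Cs * r ^ p * 1 * ((2 * C) ^ p * ε) := by
          refine mul_le_mul (mul_le_mul_of_nonneg_left h2 (by positivity)) hI1 hI0 (by positivity)
      _ = Cs * r ^ p * (2 * C) ^ p * ε := by ring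
      _ ≤ K * ε := mul_le_mul_of_nonneg_right hK2 hε0.le
      _ = κ ^ p := hKε
  · refine eLp_le_of_int hp (hψ.memLp_grad _) hκ.le (hI1.trans ?_)
    calc (2 * C) ^ p * ε ≤ K * ε := mul_le_mul_of_nonneg_right hK1 hε0.le
      _ = κ ^ p := hKε

end Pool.Agent.H889R2.OM
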