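import Pool.Agent.H889R2.OM.Defs
open MeasureTheory Filter Topology Set Metric
open scoped ENNReal NNReal RealInnerProductSpace

set_option autoImplicit false
set_option linter.unusedVariables false

/-! RAD: fibres over points of capacity zero have empty interior. -/

namespace Pool.Agent.H889R2.OM

open Pool.Agent.Helper533.Polar

/-- a preconnected set meeting an open set `U` and its complement meets the frontier of `U` -/
theorem RAD_frontier {X : Type*} [TopologicalSpace X] {s U : Set X} (hs : IsPreconnected s)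
    (hU : IsOpen U) (h1 : (s ∩ U).Nonempty) (h2 : (s ∩ Uᶜ).Nonempty) : (s ∩ frontier U).Nonempty := by
  by_contra hne
  rw [not_nonempty_iff_eq_empty] at hne
  have hcl : ∀ x ∈ s, x ∈ closure U → x ∈ U := by
    intro x hx hxc
    by_contra hxU
    have : x ∈ s ∩ frontier U := ⟨hx, by rw [frontier, hU.interior_eq]; exact ⟨hxc, hxU⟩⟩
    rw [hne] at this
    exact this
  obtain ⟨x, hx, hxU⟩ := h2
  have := hs U (closure U)ᶜ hU isClosed_closure.isOpen_compl
    (by
      intro z hz
      by_cases hzc : z ∈ closure U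
      · exact Or.inl (hcl z hz hzc)
      · exact Or.inr hzc)
    h1 ⟨x, hx, fun h => hxU (hcl x hx h)⟩
  obtain ⟨z, _, hz1, hz2⟩ := this
  exact hz2 (subset_closure hz1)

theorem RAD_ok (hAPI : S_API) (hE : S_EXP) (hPOS : S_POS) (hPOT : S_POT) (hPOL : S_POL)
    (hPAS : S_PAS) : S_RAD := by
  intro n hn p μs μ As A hGs hG Ω f hΩ hΩc hf y hcap hne
  obtain ⟨xs, hxs, hfxs⟩ := hne
  set U : Set (Sp n) := interior (Ω ∩ f ⁻¹' {y}) with hUdef
  by_contra hUne
  have hUne' : U.Nonempty := nonempty_iff_ne_empty.mpr hUne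
  have hUo : IsOpen U := isOpen_interior
  have hUs : U ⊆ Ω ∩ f ⁻¹' {y} := interior_subset
  obtain ⟨u0, hu0⟩ := hUne'
  obtain ⟨x₀, hx₀Ω, hx₀F⟩ := RAD_frontier hΩc hUo ⟨u0, (hUs hu0).1, hu0⟩
    ⟨xs, hxs, fun h => hfxs (hUs h).2⟩
  have hx₀cl : x₀ ∈ closure U := frontier_subset_closure hx₀F
  have hx₀U : x₀ ∉ U := by
    intro h
    rw [frontier, hUo.interior_eq] at hx₀F
    exact hx₀F.2 h
  have hcA : ContinuousAt f x₀ := hf.cont.continuousAt (hΩ.mem_nhds hx₀Ω)
  have hfx₀ : f x₀ = y := by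
    have h1 : f x₀ ∈ closure (f '' U) := mem_closure_image hcA hx₀cl
    have h2 : f '' U ⊆ {y} := by
      rintro _ ⟨z, hz, rfl⟩
      exact (hUs hz).2
    have h3 := closure_mono h2 h1
    rw [closure_singleton] at h3
    exact h3
  -- the radius
  have hnb : Ω ∩ f ⁻¹' (ball y 1) ∈ 𝓝 x₀ := by
    apply inter_mem (hΩ.mem_nhds hx₀Ω)
    apply hcA
    rw [hfx₀]
    exact ball_mem_nhds y one_pos
  obtain ⟨r, hr, hrs⟩ := Metric.nhds_basis_closedBall.mem_iff.mp hnb
  have hrΩ : closedBall x₀ r ⊆ Ω := fun z hz => (hrs hz).1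
  have hrf : ∀ z ∈ closedBall x₀ r, f z ∈ ball y 1 := fun z hz => (hrs hz).2
  obtain ⟨x₁, hx₁, hfx₁⟩ : ∃ x₁ ∈ ball x₀ r, f x₁ ≠ y := by
    by_contra hno
    push Not at hno
    apply hx₀U
    rw [hUdef, mem_interior]
    exact ⟨ball x₀ r, fun z hz => ⟨hrΩ (ball_subset_closedBall hz), hno z hz⟩, isOpen_ball,
      mem_ball_self hr⟩
  obtain ⟨xi, hxiB, hxiU⟩ := mem_closure_iff.mp hx₀cl (ball x₀ r) isOpen_ball (mem_ball_self hr)
  obtain ⟨t, ht, hts⟩ := Metric.nhds_basis_closedBall.mem_iff.mp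
    ((hUo.inter isOpen_ball).mem_nhds ⟨hxiU, hxiB⟩ : U ∩ ball x₀ r ∈ 𝓝 xi)
  have htB : closedBall xi t ⊆ ball x₀ r := fun z hz => (hts hz).2
  have htU : ∀ z ∈ closedBall xi t, f z = y := fun z hz => (hUs (hts hz).1).2
  obtain ⟨P₁, hP⟩ := hPOT n (by omega) p μs As hGs x₀ r xi t ht htB
  have hP1 : 0 < P₁ x₁ := by
    refine hPOS n p μs As hGs (ball x₀ r) isOpen_ball (convex_ball x₀ r).isPreconnected P₁ hP.sup
      (fun z _ => hP.nonneg z) ⟨xi, hxiB, ?_⟩ x₁ hx₁
    rw [hP.one xi (mem_closedBall_self (by linarith))]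
    exact one_pos
  obtain ⟨L, δ, hL, hδ0, hδ1, hexp⟩ := hE n p μ A hG
  have hL0 : 0 < L := by linarith
  set M : ℝ := δ * (δ * 1) with hM
  have hM0 : 0 < M := by positivity
  have hM1 : M ≤ 1 := by
    rw [hM, mul_one]
    nlinarith
  obtain ⟨s, ω, hs0, hs1, hsB, hω, hωz⟩ := hPOL n (by omega) p μ A hG y hcap 1 (f x₁) one_pos hfx₁
    (M * P₁ x₁ / 2) (by positivity) (1 / (4 * L)) (by positivity)
  have hLs : L * s ≤ 1 / 4 := by
    have : L * s ≤ L * (1 / (4 * L)) := mul_le_mul_of_nonneg_left hs1.le hL0.le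
    have e : L * (1 / (4 * L)) = 1 / 4 := by field_simp
    linarith
  have hω1 : ∀ z ∈ ball y (2 * (s / 2)), δ * 1 ≤ ω z := by
    apply hexp (ball y 1) isOpen_ball ω hω.sup (fun z _ => hω.nonneg z) y (s / 2) (by linarith)
      (ball_subset_ball (by nlinarith)) 1 one_pos
    intro z hz
    rw [hω.one z (ball_subset_closedBall hz)]
  have hω2 : ∀ z ∈ ball y (2 * s), δ * (δ * 1) ≤ ω z := by
    apply hexp (ball y 1) isOpen_ball ω hω.sup (fun z _ => hω.nonneg z) y s hs0
      (ball_subset_ball (by linarith)) (δ * 1) (by positivity)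
    intro z hz
    apply hω1 z
    rwa [mul_div_cancel₀ _ (two_ne_zero)]
  have hω3 : ∀ z ∈ closedBall y s, M ≤ ω z := by
    intro z hz
    apply hω2 z
    rw [mem_ball]
    rw [mem_closedBall] at hz
    linarith
  -- the pulled back function
  set G : Set (Sp n) := ball x₀ r with hGdef
  have hGo : IsOpen G := isOpen_ball
  have hGΩ : G ⊆ Ω := fun z hz => hrΩ (ball_subset_closedBall hz)
  have hGf : ∀ z ∈ G, f z ∈ ball y 1 := fun z hz => hrf z (ball_subset_closedBall hz)
  set v : Sp n → ℝ := fun x => min (ω (f x)) M with hv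
  have hvc : ContinuousOn v G := by
    apply ContinuousOn.inf (hω.cont.comp_continuousOn (hf.cont.mono hGΩ)) continuousOn_const
  have hvM : ∀ x ∈ G, v x ≤ M := fun x _ => min_le_right _ _
  have hv0 : ∀ x, 0 ≤ v x := fun x => le_min (hω.nonneg _) hM0.le
  set G' : Set (Sp n) := ball y 1 \ closedBall y s with hG'
  have hG'o : IsOpen G' := isOpen_ball.sdiff isClosed_closedBall
  have hpull := hf.pull G' hG'o ω hω.harm
  have hopen1 : IsOpen (Ω ∩ f ⁻¹' G') := hf.cont.isOpen_inter_preimage hΩ hG'o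
  have hopen2 : IsOpen {x | x ∈ G ∧ v x < M} := by
    have := hvc.isOpen_inter_preimage hGo (isOpen_Iio : IsOpen (Iio M))
    exact this
  have hlt : ∀ x, v x < M → ω (f x) < M := by
    intro x hx
    rcases min_lt_iff.mp hx with h | h
    · exact h
    · exact absurd h (lt_irrefl _)
  have hsub : {x | x ∈ G ∧ v x < M} ⊆ Ω ∩ f ⁻¹' G' := by
    rintro x ⟨hx, hxv⟩
    refine ⟨hGΩ hx, hGf x hx, ?_⟩
    intro hcb
    have := hω3 _ hcb
    have := hlt x hxv
    linarith
  have hharm : Hm As p μs {x | x ∈ G ∧ v x < M} v := by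
    have h1 := (hAPI n p μs As hGs _ hopen1 _ hpull).2.2.2.1 _ hopen2 hsub
    apply (hAPI n p μs As hGs _ hopen2 _ h1).2.2.2.2.1 v
    rintro x ⟨hx, hxv⟩
    have := hlt x hxv
    show ω (f x) = min (ω (f x)) M
    rw [min_eq_left this.le]
  have hcmp := hPAS n p μs As hGs G hGo v M hvc hvM hharm
  -- the claim
  have hclaim : ∀ e' : ℝ, 0 < e' → ∀ x ∈ G, M * P₁ x - e' ≤ v x := by
    intro e' he' x hx
    by_cases hxc : x ∈ closedBall xi t
    · have h1 : v x = M := by
        show min (ω (f x)) M = M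
        rw [htU x hxc, hω.one y (mem_closedBall_self (by linarith)), min_eq_right hM1]
      rw [h1]
      have := hP.le_one x
      nlinarith
    by_cases hxe : M * P₁ x ≤ e'
    · have := hv0 x
      linarith
    rw [not_le] at hxe
    set W : Set (Sp n) := (G \ closedBall xi t) ∩ {z | e' < M * P₁ z} with hW
    have hWo : IsOpen W := by
      apply IsOpen.inter (hGo.sdiff isClosed_closedBall)
      exact isOpen_lt continuous_const (continuous_const.mul hP.cont)
    have hWcl : closure W ⊆ {z | e' ≤ M * P₁ z} := by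
      apply closure_minimal
      · intro z hz
        have hz2 : e' < M * P₁ z := hz.2
        exact hz2.le
      · exact isClosed_le continuous_const (continuous_const.mul hP.cont)
    have hinG : ∀ z, e' ≤ M * P₁ z → z ∈ G := by
      intro z hz
      by_contra hzG
      rw [hP.out z hzG] at hz
      linarith
    have hWG : closure W ⊆ G := fun z hz => hinG z (hWcl hz)
    have hWcpt : IsCompact (closure W) :=
      Metric.isCompact_of_isClosed_isBounded isClosed_closure
        (Bornology.IsBounded.subset isBounded_ball hWG)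
    have hhh : Hm As p μs W (fun z => M * P₁ z + (-e')) := by
      have hop : IsOpen (G \ closedBall xi t) := hGo.sdiff isClosed_closedBall
      have h1 := (hAPI n p μs As hGs _ hop _ hP.harm).1 M
      have h2 := (hAPI n p μs As hGs _ hop _ h1).2.1 (-e')
      exact (hAPI n p μs As hGs _ hop _ h2).2.2.2.1 W hWo inter_subset_left
    obtain ⟨_, H, hLH, hH⟩ := hhh
    have := hcmp W hWo hWcpt hWG (fun z => M * P₁ z + (-e')) H
      ((continuous_const.mul hP.cont).add continuous_const).continuousOn hLH hH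
      (by
        intro z hz
        rw [frontier, hWo.interior_eq] at hz
        obtain ⟨hz1, hz2⟩ := hz
        have hzG := hWG hz1
        by_cases hzc : z ∈ closedBall xi t
        · have h1 : v z = M := by
            show min (ω (f z)) M = M
            rw [htU z hzc, hω.one y (mem_closedBall_self (by linarith)), min_eq_right hM1]
          rw [h1]
          have := hP.le_one z
          nlinarith
        · have h3 : M * P₁ z ≤ e' := by
            by_contra h
            rw [not_le] at h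
            exact hz2 ⟨⟨hzG, hzc⟩, h⟩
          have := hv0 z
          linarith)
      x ⟨⟨hx, hxc⟩, hxe⟩
    linarith
  have hfin : M * P₁ x₁ ≤ v x₁ := by
    apply le_of_forall_pos_le_add
    intro e' he'
    have := hclaim e' he' x₁ hx₁
    linarith
  have h5 : v x₁ ≤ ω (f x₁) := min_le_left _ _
  have h6 : 0 < M * P₁ x₁ := mul_pos hM0 hP1
  linarith

end Pool.Agent.H889R2.OM
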