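import Pool.Agent.H889R2.OM.Defs
open MeasureTheory Filter Topology Set Metric
open scoped ENNReal NNReal RealInnerProductSpace

set_option autoImplicit false

/-!
# Harnack inequality on spheres
-/

namespace Pool.Agent.H889R2.OM

open Pool.Agent.Helper533.Polar

/-- points of the unit sphere reachable from `e` in `k` steps of length less than `δ` -/
def SPH_R {n : ℕ} (e : Sp n) (δ : ℝ) : ℕ → Set (Sp n)
  | 0 => {e}
  | k + 1 => {z | z ∈ sphere (0 : Sp n) 1 ∧ ∃ w ∈ SPH_R e δ k, dist w z < δ}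

theorem SPH_sub {n : ℕ} {e : Sp n} (he : e ∈ sphere (0 : Sp n) 1) (δ : ℝ) (k : ℕ) :
    SPH_R e δ k ⊆ sphere (0 : Sp n) 1 := by
  cases k with
  | zero =>
    intro z hz
    have : z = e := hz
    rw [this]
    exact he
  | succ k => intro z hz; exact hz.1

theorem SPH_mono {n : ℕ} {e : Sp n} (he : e ∈ sphere (0 : Sp n) 1) {δ : ℝ} (hδ : 0 < δ) (k : ℕ) :
    SPH_R e δ k ⊆ SPH_R e δ (k + 1) := fun z hz =>
  ⟨SPH_sub he δ k hz, z, hz, by rwa [dist_self]⟩

theorem SPH_chain {n : ℕ} (hn : 2 ≤ n) {e : Sp n} (he : e ∈ sphere (0 : Sp n) 1) {δ : ℝ}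
    (hδ : 0 < δ) : ∃ N : ℕ, sphere (0 : Sp n) 1 ⊆ SPH_R e δ N := by
  set U : ℕ → Set (Sp n) := fun k => ⋃ z ∈ SPH_R e δ k, ball z δ with hU
  have hUo : ∀ k, IsOpen (U k) := fun k => isOpen_biUnion fun z _ => isOpen_ball
  have hUR : ∀ k, sphere (0 : Sp n) 1 ∩ U k ⊆ SPH_R e δ (k + 1) := by
    rintro k x ⟨hx, hxU⟩
    simp only [hU, mem_iUnion] at hxU
    obtain ⟨z, hz, hxz⟩ := hxU
    refine ⟨hx, z, hz, ?_⟩
    rw [dist_comm]
    exact hxz
  have hRm : Monotone (SPH_R e δ) := monotone_nat_of_le_succ fun k => SPH_mono he hδ k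
  have hUm : Monotone U := by
    intro a b hab
    exact biUnion_subset_biUnion_left (hRm hab)
  have hconn : IsPreconnected (sphere (0 : Sp n) 1) := by
    apply isPreconnected_sphere
    rw [← Module.finrank_eq_rank, finrank_euclideanSpace_fin]
    exact_mod_cast (by omega : 1 < n)
  set V : Set (Sp n) := ⋃ z ∈ {z | z ∈ sphere (0 : Sp n) 1 ∧ ∀ k, z ∉ SPH_R e δ k}, ball z δ
    with hV
  have hVo : IsOpen V := isOpen_biUnion fun z _ => isOpen_ball
  have hdis : sphere (0 : Sp n) 1 ∩ ((⋃ k, U k) ∩ V) = ∅ := by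
    rw [Set.eq_empty_iff_forall_notMem]
    rintro x ⟨hx, hxU, hxV⟩
    obtain ⟨k, hk⟩ := mem_iUnion.1 hxU
    have h1 := hUR k ⟨hx, hk⟩
    simp only [hV, mem_iUnion] at hxV
    obtain ⟨z, ⟨hz, hz'⟩, hxz⟩ := hxV
    exact hz' (k + 2) ⟨hz, x, h1, hxz⟩
  have hcov : sphere (0 : Sp n) 1 ⊆ (⋃ k, U k) ∪ V := by
    intro x hx
    by_cases h : ∃ k, x ∈ SPH_R e δ k
    · obtain ⟨k, hk⟩ := h
      exact Or.inl (mem_iUnion.2 ⟨k, mem_biUnion hk (mem_ball_self hδ)⟩)
    · push Not at h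
      exact Or.inr (mem_biUnion (⟨hx, h⟩ : x ∈ {z | z ∈ sphere (0 : Sp n) 1 ∧ ∀ k, z ∉ SPH_R e δ k})
        (mem_ball_self hδ))
  have heU : e ∈ ⋃ k, U k := mem_iUnion.2 ⟨0, mem_biUnion (show e ∈ SPH_R e δ 0 from rfl)
    (mem_ball_self hδ)⟩
  have hsub : sphere (0 : Sp n) 1 ⊆ ⋃ k, U k := by
    rcases (isPreconnected_iff_subset_of_disjoint.1 hconn) _ _ (isOpen_iUnion hUo) hVo hcov hdis
      with h | h
    · exact h
    · exfalso
      have : e ∈ sphere (0 : Sp n) 1 ∩ ((⋃ k, U k) ∩ V) := ⟨he, heU, h he⟩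
      rw [hdis] at this
      exact this
  obtain ⟨k, hk⟩ := (isCompact_sphere (0 : Sp n) 1).elim_directed_cover U hUo hsub
    hUm.directed_le
  exact ⟨k + 1, fun x hx => hUR k ⟨hx, hk hx⟩⟩

theorem SPH_ok (hH : S_HAR) : S_SPH := by
  intro n hn p μ A hG
  obtain ⟨L, C0, hL, hC0, hHar⟩ := hH n p μ A hG
  have hL0 : 0 < L := by linarith
  set δ : ℝ := 1 / (4 * L) with hδd
  have hδ : 0 < δ := by positivity
  set e : Sp n := EuclideanSpace.single (⟨0, by omega⟩ : Fin n) (1 : ℝ) with he0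
  have he : e ∈ sphere (0 : Sp n) 1 := by
    rw [mem_sphere_zero_iff_norm, he0]
    simp
  obtain ⟨N, hN⟩ := SPH_chain hn he hδ
  have hC00 : 0 ≤ C0 := by linarith
  refine ⟨C0 ^ N * C0 ^ N, ?_, ?_⟩
  · have := one_le_pow₀ hC0 (n := N)
    nlinarith
  intro y ρ hρ u hu hu0 z z' hz hz'
  set G : Set (Sp n) := {z | ρ / 2 < dist z y ∧ dist z y < 2 * ρ} with hGd
  have hGo : IsOpen G := by
    have h1 : Continuous fun z : Sp n => dist z y := continuous_id.dist continuous_const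
    exact (isOpen_lt continuous_const h1).inter (isOpen_lt h1 continuous_const)
  -- one step
  have hstep : ∀ a b : Sp n, dist a y = ρ → dist b a < ρ * δ → u a ≤ C0 * u b ∧ u b ≤ C0 * u a := by
    intro a b ha hab
    have hr : 0 < ρ * δ := by positivity
    have hLr : L * (ρ * δ) = ρ / 4 := by
      rw [hδd]
      field_simp
    have hsub : ball a (L * (ρ * δ)) ⊆ G := by
      rw [hLr]
      intro w hw
      rw [mem_ball] at hw
      have h1 : dist w y ≤ dist w a + dist a y := dist_triangle _ _ _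
      have h2 : dist a y ≤ dist a w + dist w y := dist_triangle _ _ _
      rw [dist_comm a w] at h2
      constructor
      · linarith
      · linarith
    have h3 := hHar G hGo u hu (fun x hx => hu0 x hx.1 hx.2) a (ρ * δ) hr hsub
    exact ⟨h3 a (mem_ball_self hr) b hab, h3 b hab a (mem_ball_self hr)⟩
  have hdist : ∀ w : Sp n, w ∈ sphere (0 : Sp n) 1 → dist (y + ρ • w) y = ρ := by
    intro w hw
    rw [mem_sphere_zero_iff_norm] at hw
    rw [dist_eq_norm, add_sub_cancel_left, norm_smul, hw, mul_one, Real.norm_of_nonneg hρ.le]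
  have hchain : ∀ k, ∀ w ∈ SPH_R e δ k, u (y + ρ • e) ≤ C0 ^ k * u (y + ρ • w) ∧
      u (y + ρ • w) ≤ C0 ^ k * u (y + ρ • e) := by
    intro k
    induction k with
    | zero =>
      intro w hw
      have : w = e := hw
      rw [this]
      simp
    | succ k ih =>
      rintro w ⟨hw, v, hv, hvw⟩
      obtain ⟨i1, i2⟩ := ih v hv
      have hvS : v ∈ sphere (0 : Sp n) 1 := SPH_sub he δ k hv
      have hd : dist (y + ρ • w) (y + ρ • v) < ρ * δ := by
        rw [dist_add_left, dist_smul₀, Real.norm_of_nonneg hρ.le, dist_comm]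
        exact mul_lt_mul_of_pos_left hvw hρ
      obtain ⟨s1, s2⟩ := hstep (y + ρ • v) (y + ρ • w) (hdist v hvS) hd
      have hk : 0 ≤ C0 ^ k := by positivity
      constructor
      · calc u (y + ρ • e) ≤ C0 ^ k * u (y + ρ • v) := i1
          _ ≤ C0 ^ k * (C0 * u (y + ρ • w)) := mul_le_mul_of_nonneg_left s1 hk
          _ = C0 ^ (k + 1) * u (y + ρ • w) := by ring
      · calc u (y + ρ • w) ≤ C0 * u (y + ρ • v) := s2
          _ ≤ C0 * (C0 ^ k * u (y + ρ • e)) := mul_le_mul_of_nonneg_left i2 hC00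
          _ = C0 ^ (k + 1) * u (y + ρ • e) := by ring
  have hpt : ∀ w : Sp n, dist w y = ρ → (ρ⁻¹ • (w - y)) ∈ sphere (0 : Sp n) 1 ∧
      y + ρ • (ρ⁻¹ • (w - y)) = w := by
    intro w hw
    constructor
    · rw [mem_sphere_zero_iff_norm, norm_smul, ← dist_eq_norm, hw,
        Real.norm_of_nonneg (inv_nonneg.2 hρ.le), inv_mul_cancel₀ hρ.ne']
    · rw [smul_smul, mul_inv_cancel₀ hρ.ne', one_smul, add_sub_cancel]
  obtain ⟨a1, a2⟩ := hpt z hz
  obtain ⟨b1, b2⟩ := hpt z' hz'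
  have h1 := (hchain N _ (hN a1)).2
  have h2 := (hchain N _ (hN b1)).1
  rw [a2] at h1
  rw [b2] at h2
  have hk : 0 ≤ C0 ^ N := by positivity
  calc u z ≤ C0 ^ N * u (y + ρ • e) := h1
    _ ≤ C0 ^ N * (C0 ^ N * u z') := mul_le_mul_of_nonneg_left h2 hk
    _ = C0 ^ N * C0 ^ N * u z' := by ring

end Pool.Agent.H889R2.OM
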