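import Pool.Agent.Helper533.Polar.Stmt
open MeasureTheory Filter Topology Set
open scoped ENNReal NNReal RealInnerProductSpace

/-!
Definitions for the statement on `𝔄_p`-harmonic morphisms (MP_abd978_an). The basic notions are
those of `Pool.Agent.Helper533.Polar.Stmt`: `wm w` is the measure `w dx`, `IsTest D φ` means
`φ ∈ C₀^∞(D)`, `IsH1Loc` is `H^{1,p}_loc`, `IsOperator p α β w 𝒜` are the structure conditions and
`IsHarmonic 𝒜 p w D h` means that `h` is `𝒜`-harmonic in `D`.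
-/

namespace Pool.Agent.H889R2.OM.Stm

open Pool.Agent.Helper533.Polar.Stmt

variable {n : ℕ}

/-- `w` is a weight and `dμ = w dx` is `p`-admissible: `μ` is doubling and supports a weighted
`(1, p)`-Poincaré inequality on balls. The Poincaré inequality is only required for
`φ ∈ C₀^∞(ℝⁿ)`, and a dilated ball is allowed on its right-hand side (the case `lam = 1` is the
undilated inequality). -/
structure IsAdmissible (p : ℝ) (w : Sp n → ℝ) : Prop where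
  locallyIntegrable : LocallyIntegrable w volume
  pos : ∀ᵐ x ∂(volume : Measure (Sp n)), 0 < w x
  doubling : ∃ C : ℝ, ∀ (x : Sp n) (r : ℝ), 0 < r →
    wm w (Metric.ball x (2 * r)) ≤ ENNReal.ofReal C * wm w (Metric.ball x r)
  poincare : ∃ lam C : ℝ, 1 ≤ lam ∧ ∀ (x : Sp n) (r : ℝ), 0 < r → ∀ φ : Sp n → ℝ,
    IsTest univ φ →
    ⨍ y in Metric.ball x r, |φ y - ⨍ z in Metric.ball x r, φ z ∂(wm w)| ∂(wm w) ≤
      C * r * (⨍ y in Metric.ball x (lam * r), ‖gradient φ y‖ ^ p ∂(wm w)) ^ (1 / p)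

/-- `f` is an `(𝒜', 𝒜)`-harmonic morphism on `Ω`: `f` is continuous on `Ω` and `u ∘ f` is
`𝒜'`-harmonic in `Ω ∩ f⁻¹(Ω')` whenever `u` is `𝒜`-harmonic in an open set `Ω'`. Here `w'` and `w`
are the weights of `𝒜'` and `𝒜`. -/
structure IsMorphism (p : ℝ) (w' : Sp n → ℝ) (𝒜' : Sp n → Sp n → Sp n) (w : Sp n → ℝ)
    (𝒜 : Sp n → Sp n → Sp n) (Ω : Set (Sp n)) (f : Sp n → Sp n) : Prop where
  cont : ContinuousOn f Ω
  pull : ∀ Ω' : Set (Sp n), IsOpen Ω' → ∀ u : Sp n → ℝ, IsHarmonic 𝒜 p w Ω' u →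
    IsHarmonic 𝒜' p w' (Ω ∩ f ⁻¹' Ω') (fun x => u (f x))

/-- the point `y` is polar: `{y}` has zero `(p, μ)`-capacity, i.e. `cap_{p,μ}({y}, B(y, r)) = 0` for
some `r > 0` -/
def IsPolarPoint (p : ℝ) (w : Sp n → ℝ) (y : Sp n) : Prop :=
  ∃ r : ℝ, 0 < r ∧ ∀ ε : ℝ, 0 < ε → ∃ φ : Sp n → ℝ, IsTest (Metric.ball y r) φ ∧ 1 ≤ φ y ∧
    ∫ x, ‖gradient φ x‖ ^ p ∂(wm w) < ε

end Pool.Agent.H889R2.OM.Stm
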