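import Pool.Agent.H889R2.OM.Topo
import Pool.Agent.H889R2.OM.PtCap
import Pool.Agent.H889R2.OM.Stm
import Pool.Agent.H889R2.OM.LOC
import Pool.Agent.H889R2.OM.RAD
import Pool.Agent.H889R2.OM.CMP
import Pool.Agent.H889R2.OM.HAR
import Pool.Agent.H889R2.OM.EXP
import Pool.Agent.H889R2.OM.OSC
import Pool.Agent.H889R2.OM.PAS
import Pool.Agent.H889R2.OM.POS
import Pool.Agent.H889R2.OM.APS
import Pool.Agent.H889R2.OM.SPH
import Pool.Agent.Helper533.Deny.Final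
open MeasureTheory Filter Topology Set Metric
open scoped ENNReal NNReal RealInnerProductSpace

set_option autoImplicit false

namespace Pool.Agent.H889R2.OM

open Pool.Agent.Helper533.Polar

variable {n : ℕ}

theorem wt_of_stm {p : ℝ} {w : Sp n → ℝ} (hw : Stm.IsAdmissible p w) : Wt p w :=
  ⟨hw.locallyIntegrable, hw.pos, hw.doubling, hw.poincare⟩

/-- from the statement to the internal assumptions -/
theorem good_of (hn : 1 ≤ n) {p : ℝ} (hp : 1 < p) {w : Sp n → ℝ} (hw : Stm.IsAdmissible p w)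
    {α β : ℝ} {𝒜 : Sp n → Sp n → Sp n} (hA : Stmt.IsOperator p α β w 𝒜) :
    Good p (Stmt.wm w) (fun x ξ => (w x)⁻¹ • 𝒜 x ξ) := by
  have hwt := wt_of_stm hw
  obtain ⟨Cd0, -, -, -, -, hfin⟩ := wm_basic' hp hwt
  haveI := hfin
  obtain ⟨Cd, θ, Cs, lam, Cp, hadm⟩ := adm_of hn hp hwt
  have hα : 0 < α := hA.alpha_pos
  have hβ : 0 < β := lt_of_lt_of_le hα hA.alpha_le_beta
  exact ⟨hp, hfin, sMono_of hwt hA, α, β, Cd, θ, Cs, lam, Cp, hα, hβ,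
    op_of_isOperator' hp hwt hA, hadm⟩

theorem hm_iff {p : ℝ} (hp : 1 < p) {w : Sp n → ℝ} (hw : Wt p w)
    [IsFiniteMeasureOnCompacts (Stmt.wm w)] {𝒜 : Sp n → Sp n → Sp n} {G : Set (Sp n)}
    (hG : IsOpen G) {u : Sp n → ℝ} :
    Stmt.IsHarmonic 𝒜 p w G u ↔ Hm (fun x ξ => (w x)⁻¹ • 𝒜 x ξ) p (Stmt.wm w) G u := by
  constructor
  · rintro ⟨hc, H, h1, h2⟩
    refine ⟨hc, H, LH.of_H1Loc hp hG h1, fun φ hφ => ?_⟩
    have h3 := h2 φ (isTest_iff.2 hφ)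
    have h4 := integral_wm' hw (fun x => ⟪𝒜 x (H x), gradient φ x⟫)
    rw [← h3, ← h4]
    congr 1
    ext x
    rw [real_inner_smul_left]
  · rintro ⟨hc, H, h1, h2⟩
    refine ⟨hc, H, LH.toH1Loc hp hG h1, fun φ hφ => ?_⟩
    have h3 := h2 φ (isTest_iff.1 hφ)
    have h4 := integral_wm' hw (fun x => ⟪𝒜 x (H x), gradient φ x⟫)
    rw [← h4, ← h3]
    congr 1
    ext x
    rw [real_inner_smul_left]

theorem mor_of {p : ℝ} (hp : 1 < p) {ws w : Sp n → ℝ} (hws : Wt p ws)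
    (hw : Wt p w) [IsFiniteMeasureOnCompacts (Stmt.wm ws)] [IsFiniteMeasureOnCompacts (Stmt.wm w)]
    {As 𝒜 : Sp n → Sp n → Sp n} {Ω : Set (Sp n)} (hΩ : IsOpen Ω) {f : Sp n → Sp n}
    (hf : Stm.IsMorphism p ws As w 𝒜 Ω f) :
    Mor (fun x ξ => (ws x)⁻¹ • As x ξ) (Stmt.wm ws) (fun x ξ => (w x)⁻¹ • 𝒜 x ξ) (Stmt.wm w)
      p Ω f where
  cont := hf.cont
  pull G' hG' u hu := by
    have h1 := hf.pull G' hG' u ((hm_iff hp hw hG').2 hu)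
    exact (hm_iff hp hws (hf.cont.isOpen_inter_preimage hΩ hG')).1 h1

/-- everything -/
theorem om_main (hPOT : S_POT) (hPOL : S_POL) (hn : 2 ≤ n) {p : ℝ} (hp : 1 < p)
    {ws w : Sp n → ℝ} (hws : Stm.IsAdmissible p ws) (hw : Stm.IsAdmissible p w)
    {αs βs α β : ℝ} {As 𝒜 : Sp n → Sp n → Sp n} (hAs : Stmt.IsOperator p αs βs ws As)
    (hA : Stmt.IsOperator p α β w 𝒜) {Ω : Set (Sp n)} (hΩ : IsOpen Ω) (hΩc : IsConnected Ω)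
    {f : Sp n → Sp n} (hf : Stm.IsMorphism p ws As w 𝒜 Ω f)
    (hne : ∃ a ∈ Ω, ∃ b ∈ Ω, f a ≠ f b) :
    (∀ x ∈ Ω, {z | f z = f x} ∉ 𝓝 x → ∀ U ∈ 𝓝 x, f '' (Ω ∩ U) ∈ 𝓝 (f x)) ∧
    (∀ A ⊆ Ω, IsOpen A → IsConnected A → IsOpen (f '' A) ∨ ∃ y, f '' A = {y}) ∧
    (∀ y, Stm.IsPolarPoint p w y → interior (Ω ∩ f ⁻¹' {y}) = ∅) ∧
    (∀ y, ∀ x ∈ Ω, x ∈ frontier (interior (Ω ∩ f ⁻¹' {y})) → ∀ U ∈ 𝓝 x, ∀ M : ℕ,
      ∀ᶠ z in 𝓝 y, (M : ℕ∞) ≤ (Ω ∩ U ∩ f ⁻¹' {z}).encard) ∧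
    ((∀ U ⊆ Ω, IsOpen U → IsOpen (f '' U)) ↔ ∀ y, interior (Ω ∩ f ⁻¹' {y}) = ∅) ∧
    ((∀ x ∈ Ω, ∃ U ∈ 𝓝 x, ∃ M : ℕ, ∃ᶠ z in 𝓝 (f x), (Ω ∩ U ∩ f ⁻¹' {z}).encard ≤ M) →
      ∀ U ⊆ Ω, IsOpen U → IsOpen (f '' U)) := by
  have hn1 : 1 ≤ n := by omega
  have hwt := wt_of_stm hw
  have hwts := wt_of_stm hws
  have hg := good_of hn1 hp hw hA
  have hgs := good_of hn1 hp hws hAs
  haveI := hg.fin
  haveI := hgs.fin
  have hm := mor_of hp hwts hwt hΩ hf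
  have hO := OSC_ok API_ok
  have hH := HAR_ok API_ok EXP_ok hO
  have hPOS := POS_ok EXP_ok
  have hCMP := CMP_ok API_ok
  have hLOC : S_LOC := LOC_ok APS_ok hO hH hPOS (SPH_ok hH) hCMP hPOT
  have hRAD : S_RAD := RAD_ok API_ok EXP_ok hPOS hPOT hPOL (PAS_ok API_ok hCMP)
  have hopen : ∀ x ∈ Ω, {z | f z = f x} ∉ 𝓝 x → OpenAt Ω f x := fun x hx hnx =>
    openAt_of_loc hΩ hx (fun h1 r hr hrΩ =>
      hLOC n hn p _ _ _ _ hgs hg Ω f hΩ hm x hx h1 r hr hrΩ) hnx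
  refine ⟨hopen, fun A hAΩ hAo hAc => image_domain hAΩ hAo hAc hf.cont hopen, ?_, ?_, ?_, ?_⟩
  · rintro y ⟨r, hr, h⟩
    have hcap : CapNull p (Stmt.wm w) {y} {y} := by
      obtain ⟨-, -, -, α', β', Cd, θ, Cs, lam, Cp, -, -, -, hadm⟩ := hg
      refine capNull_of_point hp hadm hr fun ε hε => ?_
      obtain ⟨φ, h1, h2, h3⟩ := h ε hε
      exact ⟨φ, isTest_iff.1 h1, h2, h3⟩
    refine hRAD n hn p _ _ _ _ hgs hg Ω f hΩ hΩc.isPreconnected hm y hcap ?_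
    obtain ⟨a, ha, b, hb, hab⟩ := hne
    by_contra hcon
    push Not at hcon
    exact hab ((hcon a ha).trans (hcon b hb).symm)
  · intro y x hx hxF U hU M
    exact mult hn hΩ hf.cont hopen hx hxF hU M
  · exact open_iff hn hΩ hopen
  · exact open_of_mult hn hΩ hΩc.isPreconnected hf.cont hne hopen

end Pool.Agent.H889R2.OM
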