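import Pool.Agent.H889R2.OM.POT
open MeasureTheory Filter Topology Set Metric
open scoped ENNReal NNReal RealInnerProductSpace

set_option autoImplicit false

namespace Pool.Agent.H889R2.OM

open Pool.Agent.Helper533.Polar

variable {n : ℕ}

theorem POLb_ok (hH : S_HAR) : S_POL := by
  intro n hn p μ A hG y hcap R z hR hzy e he s₀ hs₀
  have hG' := hG
  obtain ⟨hp, hfin, hsm, α, β, Cd, θ, Cs, lam, Cp, hα, hβ, hA, hadm⟩ := hG'
  haveI := hfin
  have hd0 : 0 < dist z y := dist_pos.2 hzy
  -- radii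
  obtain ⟨d, hd⟩ : ∃ d, d = min R (dist z y) := ⟨_, rfl⟩
  have hdpos : 0 < d := by rw [hd]; exact lt_min hR hd0
  have hdR : d ≤ R := by rw [hd]; exact min_le_left _ _
  have hdz : d ≤ dist z y := by rw [hd]; exact min_le_right _ _
  by_cases hzR : z ∈ ball y R
  swap
  · -- trivial case
    obtain ⟨s, hs⟩ : ∃ s, s = min (R / 2) (s₀ / 2) := ⟨_, rfl⟩
    have hs0 : 0 < s := by rw [hs]; exact lt_min (by positivity) (by positivity)
    have hs1 : s ≤ R / 2 := by rw [hs]; exact min_le_left _ _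
    have hs2 : s ≤ s₀ / 2 := by rw [hs]; exact min_le_right _ _
    have hsub : closedBall y s ⊆ ball y R := closedBall_subset_ball (by linarith)
    obtain ⟨ω, hω⟩ := POT_ok n hn p μ A hG y R y s hs0 hsub
    exact ⟨s, ω, hs0, by linarith, hsub, hω, by rw [hω.out z hzR]; exact he⟩
  obtain ⟨L, C, hL, hC, hHar⟩ := hH n p μ A hG
  -- a ball around z
  have hopen : IsOpen (ball y R \ closedBall y (d / 2)) := isOpen_ball.sdiff isClosed_closedBall
  obtain ⟨r', hr', hr'sub⟩ := Metric.isOpen_iff.1 hopen z ⟨hzR, by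
    rw [mem_closedBall, not_le]; linarith⟩
  obtain ⟨r, hr⟩ : ∃ r, r = r' / L := ⟨_, rfl⟩
  have hL0 : 0 < L := by linarith
  have hr0 : 0 < r := by rw [hr]; positivity
  have hLr : L * r = r' := by rw [hr]; field_simp
  have hmz : 0 < μ.real (ball z r) := ENNReal.toReal_pos (hadm.pos z r hr0).ne' (hadm.fin z r).ne
  have hC0 : 0 < C := by linarith
  obtain ⟨κ, hκ, hsmall⟩ := obs_small (μ := μ) (A := A) (D := ball y R) (M := 1) hp hα hβ hA hadm
    isOpen_ball isBounded_ball zero_le_one (d := e / (2 * C)) (η := μ.real (ball z r) / 2)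
    (by positivity) (by positivity)
  obtain ⟨V, φ, Φ, hV, hyV, -, h0, h01, h1, hn1, hn2⟩ := hcap univ isOpen_univ (subset_univ _) κ hκ
  have hyV' : y ∈ V := hyV ⟨rfl, rfl⟩
  obtain ⟨s', hs', hs'V⟩ := Metric.isOpen_iff.1 hV y hyV'
  obtain ⟨s, hs⟩ : ∃ s, s = min (s' / 2) (min (d / 2) (s₀ / 2)) := ⟨_, rfl⟩
  have hs0 : 0 < s := by
    rw [hs]; exact lt_min (by positivity) (lt_min (by positivity) (by positivity))
  have hs1 : s ≤ s' / 2 := by rw [hs]; exact min_le_left _ _
  have hs2 : s ≤ d / 2 := by rw [hs]; exact (min_le_right _ _).trans (min_le_left _ _)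
  have hs3 : s ≤ s₀ / 2 := by rw [hs]; exact (min_le_right _ _).trans (min_le_right _ _)
  have hsub : closedBall y s ⊆ ball y R := closedBall_subset_ball (by linarith)
  obtain ⟨ρ, ω, W, hρ, hρ01, hρs, hC1, hPot⟩ := POT_aux hn hG y R y s hs0 hsub
  refine ⟨s, ω, hs0, by linarith, hsub, hPot, ?_⟩
  -- the zero obstacle
  obtain ⟨ω', W', hC2, -, h01', -, -⟩ := exists_raw (y0 := y) (ρ := fun _ => (0 : ℝ)) hn hp hα hβ hA hadm hR
    Cc.zero (fun x => ⟨le_refl 0, zero_le_one⟩)
  have hz' : ∀ᵐ x ∂μ, ω' x ≤ 0 :=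
    hC2.obs.le_const hp hα hβ hA hadm isBounded_ball le_rfl (fun x => le_rfl)
  have hsm := hsmall ρ ω (fun _ => 0) ω' φ W W' Φ V 0 le_rfl hρ hC1 Cc.zero hC2 hρ01
    (fun x => ⟨le_rfl, zero_le_one⟩) (by
      intro x hx hxV
      have : ρ x = 0 := zero_of_notMem fun hx2 => hxV (hs'V (by
        have := hρs hx2
        rw [mem_closedBall] at this
        rw [mem_ball]
        linarith))
      rw [this, add_zero]) h0 h01 h1 hn1 hn2
  by_contra hcon
  rw [not_lt] at hcon
  -- lower bound on the ball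
  have hHm : Hm A p μ (ball z (L * r)) ω := by
    have hsub' : ball z (L * r) ⊆ ball y R \ closedBall y s := by
      rw [hLr]
      refine hr'sub.trans (sdiff_subset_sdiff_right (closedBall_subset_closedBall hs2))
    obtain ⟨hc, H, hH1, hH2⟩ := hPot.harm
    exact ⟨hc.mono hsub', H, hH1.mono hsub' hp isOpen_ball, fun φ hφ => hH2 φ (hφ.mono hsub')⟩
  have hlow : ∀ x ∈ ball z r, e / C ≤ ω x := by
    intro x hx
    have h2 := hHar _ isOpen_ball ω hHm (fun x _ => hPot.nonneg x) z r hr0 (Subset.refl _) z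
      (mem_ball_self hr0) x hx
    rw [div_le_iff₀ hC0]
    linarith [mul_comm C (ω x)]
  have hbig : μ.real (ball z r) ≤ μ.real (ball z r) / 2 := by
    have h3 : μ (ball z r) ≤ ENNReal.ofReal (μ.real (ball z r) / 2) := by
      refine le_trans (measure_mono_ae ?_) hsm
      filter_upwards [hz'] with x hx hxb
      have h4 := hlow x hxb
      have h5 : e / (2 * C) < e / C := by
        rw [div_lt_div_iff_of_pos_left he (by positivity) hC0]
        linarith
      have h6 : x ∈ ball y R := by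
        have h7 : x ∈ ball z (L * r) := ball_subset_ball (by nlinarith) hxb
        rw [hLr] at h7
        exact (hr'sub h7).1
      refine ⟨h6, ?_⟩
      linarith
    have h4 := ENNReal.toReal_mono ENNReal.ofReal_ne_top h3
    rw [ENNReal.toReal_ofReal (by positivity)] at h4
    exact h4
  linarith

end Pool.Agent.H889R2.OM
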