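import Pool.Agent.H889R2.OM.Defs

set_option autoImplicit false

open MeasureTheory Filter Topology Set Metric
open scoped ENNReal NNReal RealInnerProductSpace

namespace Pool.Agent.H889R2.OM

open Pool.Agent.Helper533.Polar

variable {n : ℕ}

theorem POT_aux (hn : 1 ≤ n) {p : ℝ} {μ : Measure (Sp n)} {A : Sp n → Sp n → Sp n}
    (h : Good p μ A) (y : Sp n) (R : ℝ) (a : Sp n) (s : ℝ) (hs : 0 < s)
    (hsub : closedBall a s ⊆ ball y R) :
    ∃ (ρ ω : Sp n → ℝ) (W : Sp n → Sp n), Cc (ball y R) ρ ∧ (∀ x, 0 ≤ ρ x ∧ ρ x ≤ 1) ∧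
      tsupport ρ ⊆ closedBall a s ∧ CObs A p μ (ball y R) ρ ω W ∧ Pot A p μ y R a s ω := by
  obtain ⟨hp, hfin, hsm, α, β, Cd, θ, Cs, lam, Cp, hα, hβ, hA, hadm⟩ := h
  have := hfin
  have hR : 0 < R := by
    have h1 : a ∈ ball y R := hsub (mem_closedBall_self hs.le)
    exact dist_nonneg.trans_lt (mem_ball.mp h1)
  let f : ContDiffBump a := ⟨s / 2, s, by positivity, by linarith⟩
  have hts : tsupport (f : Sp n → ℝ) = closedBall a s := f.tsupport_eq
  have hρ : Cc (ball y R) (f : Sp n → ℝ) :=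
    ⟨f.contDiff, f.hasCompactSupport, by rw [hts]; exact hsub⟩
  have hρ01 : ∀ x, 0 ≤ (f : Sp n → ℝ) x ∧ (f : Sp n → ℝ) x ≤ 1 := fun x => ⟨f.nonneg, f.le_one⟩
  obtain ⟨ω, W, hC, hc, h01, hge, h0⟩ := exists_raw hn hp hα hβ hA hadm hR hρ hρ01
  refine ⟨f, ω, W, hρ, hρ01, hts.subset, hC, hc, fun x => (h01 x).1, fun x => (h01 x).2, h0, ?_,
    ⟨hc.continuousOn, W, hC.obs.sup hp⟩, ?_⟩
  · intro x hx
    have h1 : (f : Sp n → ℝ) x = 1 := f.one_of_mem_closedBall hx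
    have h2 := hge x
    rw [h1] at h2
    exact le_antisymm (h01 x).2 h2
  · have hsub' : ball y R \ closedBall a s ⊆ ball y R := sdiff_subset
    have ho : IsOpen (ball y R \ closedBall a s) := isOpen_ball.sdiff isClosed_closedBall
    refine ⟨hc.continuousOn, W, (H0.toLH hp hC.obs.h0).mono hsub' hp ho, fun φ hφ => ?_⟩
    refine CObs.harm_off hp hα hβ hA isOpen_ball hρ (fun x => (hρ01 x).1) hC
      (B := (tsupport φ)ᶜ) (isClosed_tsupport _).isOpen_compl ?_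
      (H0.of_Cc (hφ.mono hsub')) (Eventually.of_forall fun x hx => ?_)
    · intro x hx hx'
      rw [hts] at hx
      exact (hφ.supp hx').2 hx
    · exact image_eq_zero_of_notMem_tsupport hx

theorem POT_ok : S_POT := by
  intro n hn p μ A h y R a s hs hsub
  obtain ⟨_, ω, _, _, _, _, _, hω⟩ := POT_aux hn h y R a s hs hsub
  exact ⟨ω, hω⟩

end Pool.Agent.H889R2.OM
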