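import Pool.Agent.H889R2.OM.Fin
import Pool.Agent.H889R2.OM.POT
import Pool.Agent.H889R2.OM.POLb
open MeasureTheory Filter Topology Set Metric
open scoped ENNReal NNReal RealInnerProductSpace

set_option autoImplicit false

namespace Pool.Agent.H889R2.OM

open Pool.Agent.Helper533.Polar

variable {n : ℕ}

theorem POL'_ok : S_POL := POLb_ok (HAR_ok API_ok EXP_ok (OSC_ok API_ok))

theorem om_open (hn : 2 ≤ n) {p : ℝ} (hp : 1 < p)
    {ws w : Sp n → ℝ} (hws : Stm.IsAdmissible p ws) (hw : Stm.IsAdmissible p w)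
    {αs βs α β : ℝ} {As 𝒜 : Sp n → Sp n → Sp n} (hAs : Stmt.IsOperator p αs βs ws As)
    (hA : Stmt.IsOperator p α β w 𝒜) {Ω : Set (Sp n)} (hΩ : IsOpen Ω) (hΩc : IsConnected Ω)
    {f : Sp n → Sp n} (hf : Stm.IsMorphism p ws As w 𝒜 Ω f)
    (hne : ∃ a ∈ Ω, ∃ b ∈ Ω, f a ≠ f b) :
    ∀ x ∈ Ω, ({z | f z = f x} ∉ 𝓝 x ∨ Stm.IsPolarPoint p w (f x)) →
      ∀ U ∈ 𝓝 x, f '' (Ω ∩ U) ∈ 𝓝 (f x) := by
  obtain ⟨h1, -, h3, -⟩ := om_main POT_ok POL'_ok hn hp hws hw hAs hA hΩ hΩc hf hne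
  intro x hx hx2
  refine h1 x hx ?_
  rcases hx2 with h | h
  · exact h
  · intro hcon
    have h4 : x ∈ interior (Ω ∩ f ⁻¹' {f x}) :=
      mem_interior_iff_mem_nhds.2 (inter_mem (hΩ.mem_nhds hx) hcon)
    rw [h3 _ h] at h4
    exact h4

end Pool.Agent.H889R2.OM
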