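import Pool.Agent.H889R2.OM.API
open MeasureTheory Filter Topology Set Metric
open scoped ENNReal NNReal RealInnerProductSpace

set_option autoImplicit false

namespace Pool.Agent.H889R2.OM

open Pool.Agent.Helper533.Polar

variable {n : ℕ}

/-- annuli are connected -/
theorem annulus_preconnected (hn : 2 ≤ n) (y : Sp n) {a b : ℝ} (ha : 0 ≤ a) :
    IsPreconnected {z : Sp n | a < dist z y ∧ dist z y < b} := by
  have hrank : 1 < Module.rank ℝ (Sp n) := by
    rw [← Module.finrank_eq_rank, finrank_euclideanSpace, Fintype.card_fin]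
    exact_mod_cast hn
  have h1 : IsPreconnected (sphere (0 : Sp n) 1) := isPreconnected_sphere hrank 0 1
  have h2 : IsPreconnected (Ioo a b) := isPreconnected_Ioo
  have h3 := (h1.prod h2).image (fun q : Sp n × ℝ => y + q.2 • q.1) (by fun_prop)
  have h4 : (fun q : Sp n × ℝ => y + q.2 • q.1) '' (sphere (0 : Sp n) 1 ×ˢ Ioo a b) =
      {z : Sp n | a < dist z y ∧ dist z y < b} := by
    ext z
    constructor
    · rintro ⟨⟨e, t⟩, ⟨he, ht⟩, rfl⟩
      rw [mem_sphere_zero_iff_norm] at he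
      have ht0 : 0 < t := lt_of_le_of_lt ha ht.1
      have : dist (y + t • e) y = t := by
        rw [dist_eq_norm, add_sub_cancel_left, norm_smul, he, mul_one, Real.norm_of_nonneg ht0.le]
      simp only [mem_setOf_eq, this]
      exact ht
    · rintro ⟨hz1, hz2⟩
      have hd : 0 < dist z y := lt_of_le_of_lt ha hz1
      refine ⟨((dist z y)⁻¹ • (z - y), dist z y), ⟨?_, hz1, hz2⟩, ?_⟩
      · rw [mem_sphere_zero_iff_norm, norm_smul, ← dist_eq_norm, norm_inv,
          Real.norm_of_nonneg dist_nonneg, inv_mul_cancel₀ hd.ne']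
      · simp only
        rw [smul_smul, mul_inv_cancel₀ hd.ne', one_smul]
        abel
  rw [h4] at h3
  exact h3

/-- normalised potential: harmonic off `closedBall y δ` in `ball y R` -/
structure NP (A : Sp n → Sp n → Sp n) (p : ℝ) (μ : Measure (Sp n)) (y : Sp n) (R δ : ℝ)
    (w : Sp n → ℝ) : Prop where
  cont : Continuous w
  nonneg : ∀ x, 0 ≤ w x
  out : ∀ x, x ∉ ball y R → w x = 0
  sup : SupC A p μ (ball y R) w
  harm : Hm A p μ (ball y R \ closedBall y δ) w

section
variable {p : ℝ} {μ : Measure (Sp n)} {A : Sp n → Sp n → Sp n} {y : Sp n} {R δ : ℝ}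
  {w : Sp n → ℝ}

theorem open_diff (y : Sp n) (R ρ : ℝ) : IsOpen (ball y R \ closedBall y ρ) :=
  isOpen_ball.sdiff isClosed_closedBall

theorem closure_diff_compact (y : Sp n) (R ρ : ℝ) : IsCompact (closure (ball y R \ closedBall y ρ)) :=
  (isBounded_ball.subset sdiff_subset).isCompact_closure

theorem frontier_diff {y z : Sp n} {R ρ : ℝ} (hz : z ∈ frontier (ball y R \ closedBall y ρ)) :
    z ∉ ball y R ∨ dist z y = ρ := by
  rw [(open_diff y R ρ).frontier_eq] at hz
  obtain ⟨h1, h2⟩ := hz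
  by_cases h3 : z ∈ ball y R
  · right
    have h4 : z ∈ closedBall y ρ := by
      by_contra h5
      exact h2 ⟨h3, h5⟩
    have h5 : ρ ≤ dist z y := by
      have h6 : ball y R \ closedBall y ρ ⊆ {x | ρ ≤ dist x y} := by
        rintro x ⟨-, hx⟩
        rw [mem_closedBall, not_le] at hx
        exact hx.le
      have h7 : IsClosed {x : Sp n | ρ ≤ dist x y} :=
        isClosed_le continuous_const (continuous_id.dist continuous_const)
      exact closure_minimal h6 h7 h1
    exact le_antisymm h4 h5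
  · exact Or.inl h3

/-- maximum principle outside a ball -/
theorem NP.outer (hCMP : S_CMP) (hg : Good p μ A) (h : NP A p μ y R δ w) {ρ c : ℝ}
    (hρ : δ ≤ ρ) (hc : 0 ≤ c) (hs : ∀ z, dist z y = ρ → w z ≤ c) :
    ∀ z, ρ ≤ dist z y → w z ≤ c := by
  intro z hz
  rcases hz.eq_or_lt with h1 | h1
  · exact hs z h1.symm
  by_cases hzR : z ∈ ball y R
  · refine hCMP n p μ A hg (ball y R \ closedBall y ρ) (open_diff y R ρ)
      (closure_diff_compact y R ρ) w (fun _ => c) h.cont.continuousOn continuousOn_const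
      ?_ ?_ ?_ z ⟨hzR, by rwa [mem_closedBall, not_le]⟩
    · exact (API_ok n p μ A hg _ (open_diff y R δ) w h.harm).2.2.2.1 _ (open_diff y R ρ)
        (sdiff_subset_sdiff_right (closedBall_subset_closedBall hρ))
    · exact (API_ok n p μ A hg _ (open_diff y R ρ) _ (Hm_const hg _ c)).2.2.2.2.2
    · intro x hx
      rcases frontier_diff hx with h2 | h2
      · rw [h.out x h2]
        exact hc
      · exact hs x h2
  · rw [h.out z hzR]
    exact hc

/-- minimum principle inside a ball -/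
theorem NP.inner (hCMP : S_CMP) (hAPS : S_APS) (hg : Good p μ A) (h : NP A p μ y R δ w) {ρ c : ℝ}
    (hρ : ρ ≤ R) (hs : ∀ z, dist z y = ρ → c ≤ w z) :
    ∀ z, dist z y ≤ ρ → c ≤ w z := by
  intro z hz
  rcases hz.eq_or_lt with h1 | h1
  · exact hs z h1
  refine hCMP n p μ A hg (ball y ρ) isOpen_ball
    (isBounded_ball.isCompact_closure) (fun _ => c) w continuousOn_const h.cont.continuousOn
    (Hm_const hg _ c) ?_ ?_ z h1
  · exact (hAPS n p μ A hg _ isOpen_ball w h.sup).2.2 _ isOpen_ball (ball_subset_ball hρ)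
  · intro x hx
    exact hs x (frontier_ball_subset_sphere hx)

/-- Harnack inequality on spheres for `c - w` -/
theorem NP.sph (hg : Good p μ A) (h : NP A p μ y R δ w) {C : ℝ}
    (hC : ∀ (y : Sp n) (ρ : ℝ), 0 < ρ → ∀ u : Sp n → ℝ,
      Hm A p μ {z | ρ / 2 < dist z y ∧ dist z y < 2 * ρ} u →
      (∀ z, ρ / 2 < dist z y → dist z y < 2 * ρ → 0 ≤ u z) →
      ∀ z z', dist z y = ρ → dist z' y = ρ → u z ≤ C * u z')
    {ρ c : ℝ} (hρ0 : 0 < ρ) (hδ : 2 * δ ≤ ρ) (hρ : 2 * ρ ≤ R)
    (hc : ∀ z, ρ / 2 < dist z y → w z ≤ c) :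
    ∀ z z', dist z y = ρ → dist z' y = ρ → c - w z ≤ C * (c - w z') := by
  have hsub : {z : Sp n | ρ / 2 < dist z y ∧ dist z y < 2 * ρ} ⊆ ball y R \ closedBall y δ := by
    rintro z ⟨h1, h2⟩
    refine ⟨?_, ?_⟩
    · rw [mem_ball]
      linarith
    · rw [mem_closedBall, not_le]
      linarith
  have hop : IsOpen {z : Sp n | ρ / 2 < dist z y ∧ dist z y < 2 * ρ} :=
    (isOpen_lt continuous_const (continuous_id.dist continuous_const)).inter
      (isOpen_lt (continuous_id.dist continuous_const) continuous_const)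
  have h1 := (API_ok n p μ A hg _ (open_diff y R δ) w h.harm).2.2.1 c
  have h2 := (API_ok n p μ A hg _ (open_diff y R δ) _ h1).2.2.2.1 _ hop hsub
  exact hC y ρ hρ0 _ h2 fun z hz _ => sub_nonneg.2 (hc z hz)

/-- Harnack inequality on spheres for `w` -/
theorem NP.sph' (hg : Good p μ A) (h : NP A p μ y R δ w) {C : ℝ}
    (hC : ∀ (y : Sp n) (ρ : ℝ), 0 < ρ → ∀ u : Sp n → ℝ,
      Hm A p μ {z | ρ / 2 < dist z y ∧ dist z y < 2 * ρ} u →
      (∀ z, ρ / 2 < dist z y → dist z y < 2 * ρ → 0 ≤ u z) →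
      ∀ z z', dist z y = ρ → dist z' y = ρ → u z ≤ C * u z')
    {ρ : ℝ} (hρ0 : 0 < ρ) (hδ : 2 * δ ≤ ρ) (hρ : 2 * ρ ≤ R) :
    ∀ z z', dist z y = ρ → dist z' y = ρ → w z ≤ C * w z' := by
  have hsub : {z : Sp n | ρ / 2 < dist z y ∧ dist z y < 2 * ρ} ⊆ ball y R \ closedBall y δ := by
    rintro z ⟨h1, h2⟩
    refine ⟨?_, ?_⟩
    · rw [mem_ball]
      linarith
    · rw [mem_closedBall, not_le]
      linarith
  have hop : IsOpen {z : Sp n | ρ / 2 < dist z y ∧ dist z y < 2 * ρ} :=
    (isOpen_lt continuous_const (continuous_id.dist continuous_const)).inter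
      (isOpen_lt (continuous_id.dist continuous_const) continuous_const)
  have h2 := (API_ok n p μ A hg _ (open_diff y R δ) _ h.harm).2.2.2.1 _ hop hsub
  exact hC y ρ hρ0 _ h2 fun z _ _ => h.nonneg z

/-- KEY: the values off a small ball are almost bounded by the value at the centre -/
theorem NP.key (hn : 2 ≤ n) (hCMP : S_CMP) (hAPS : S_APS) (hg : Good p μ A)
    (h : NP A p μ y R δ w) {C : ℝ} (hC1 : 1 ≤ C)
    (hC : ∀ (y : Sp n) (ρ : ℝ), 0 < ρ → ∀ u : Sp n → ℝ,
      Hm A p μ {z | ρ / 2 < dist z y ∧ dist z y < 2 * ρ} u →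
      (∀ z, ρ / 2 < dist z y → dist z y < 2 * ρ → 0 ≤ u z) →
      ∀ z z', dist z y = ρ → dist z' y = ρ → u z ≤ C * u z')
    {ρ' K : ℝ} {I : ℕ} (hI : 1 ≤ I) (hρ0 : 0 < ρ') (hρR : 2 * ρ' ≤ R)
    (hδ : 2 * δ * 8 ^ I ≤ ρ') (hδ0 : 0 ≤ δ)
    (hK : ∀ z, 2 * δ ≤ dist z y → w z ≤ K) :
    ∀ z, ρ' ≤ dist z y → w z ≤ w y + C * (K / I) := by
  have hrank : 1 < Module.rank ℝ (Sp n) := by
    rw [← Module.finrank_eq_rank, finrank_euclideanSpace, Fintype.card_fin]
    exact_mod_cast hn
  haveI : Nontrivial (Sp n) := by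
    haveI : Nonempty (Fin n) := ⟨⟨0, by omega⟩⟩
    infer_instance
  obtain ⟨r, hr⟩ : ∃ r : ℕ → ℝ, r = fun i => ρ' / 8 ^ i := ⟨_, rfl⟩
  have hr0 : ∀ i, 0 < r i := fun i => by rw [hr]; positivity
  have hrs : ∀ i, r (i + 1) = r i / 8 := fun i => by
    rw [hr]
    simp only [pow_succ]
    field_simp
  have hrle : ∀ i, r i ≤ ρ' := fun i => by
    rw [hr]
    exact div_le_self hρ0.le (one_le_pow₀ (by norm_num))
  have hrδ : ∀ i, i ≤ I → 2 * δ ≤ r i := by
    intro i hi
    rw [hr]
    simp only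
    rw [le_div_iff₀ (by positivity)]
    refine le_trans ?_ hδ
    refine mul_le_mul_of_nonneg_left ?_ (by linarith)
    exact pow_le_pow_right₀ (by norm_num) hi
  -- maximum points on the spheres
  have hmax : ∀ i, ∃ z, dist z y = r i ∧ ∀ z', dist z' y = r i → w z' ≤ w z := by
    intro i
    have hne : (sphere y (r i)).Nonempty := NormedSpace.sphere_nonempty.2 (hr0 i).le
    obtain ⟨z, hz, hz2⟩ := (isCompact_sphere y (r i)).exists_isMaxOn hne h.cont.continuousOn
    exact ⟨z, hz, fun z' hz' => hz2 hz'⟩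
  choose zz hzz hzm using hmax
  have hout : ∀ i, i ≤ I → ∀ z, r i ≤ dist z y → w z ≤ w (zz i) := fun i hi =>
    h.outer hCMP hg (by linarith [hrδ i hi]) (h.nonneg _) (hzm i)
  -- pigeonhole
  have hpig : ∃ i, i < I ∧ w (zz (i + 1)) - w (zz i) ≤ K / I := by
    by_contra hcon
    push Not at hcon
    have hsum : ∀ j, j ≤ I → (j : ℝ) * (K / I) ≤ w (zz j) - w (zz 0) := by
      intro j
      induction j with
      | zero => intro _; simp
      | succ j ih =>
        intro hj
        have h1 := ih (by omega)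
        have h2 := hcon j (by omega)
        push_cast
        linarith
    have hsum' : ∀ j, j ≤ I → 1 ≤ j → (j : ℝ) * (K / I) < w (zz j) - w (zz 0) := by
      intro j hj h1j
      obtain ⟨k, rfl⟩ : ∃ k, j = k + 1 := ⟨j - 1, by omega⟩
      have h1 := hsum k (by omega)
      have h2 := hcon k (by omega)
      push_cast
      linarith
    have h3 := hsum' I le_rfl hI
    have hI0 : (I : ℝ) ≠ 0 := by
      have : 0 < I := by omega
      positivity
    rw [mul_div_cancel₀ _ hI0] at h3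
    have h4 := hK (zz I) (by rw [hzz]; exact hrδ I le_rfl)
    have h5 := h.nonneg (zz 0)
    linarith
  obtain ⟨i, hi, hpi⟩ := hpig
  -- Harnack on the sphere of radius r i
  have hsph := h.sph hg hC (ρ := r i) (c := w (zz (i + 1))) (hr0 i) (hrδ i (by omega))
    (by linarith [hrle i]) (fun z hz => hout (i + 1) (by omega) z (by
      rw [hrs]
      linarith [hr0 i]))
  have hlow : ∀ z, dist z y = r i → w (zz (i + 1)) - C * (K / I) ≤ w z := by
    intro z hz
    have h1 := hsph z (zz i) hz (hzz i)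
    have h2 : C * (w (zz (i + 1)) - w (zz i)) ≤ C * (K / I) :=
      mul_le_mul_of_nonneg_left hpi (by linarith)
    linarith
  have hy := h.inner hCMP hAPS hg (ρ := r i) (by linarith [hrle i, hr0 i]) hlow y (by
    rw [dist_self]
    exact (hr0 i).le)
  intro z hz
  have h1 := hout 0 (by omega) z (by
    rw [hr]
    simpa using hz)
  have h2 : w (zz 0) ≤ w (zz (i + 1)) := hout (i + 1) (by omega) _ (by
    rw [hzz]
    have : r (i + 1) ≤ ρ' := hrle _
    have h0 : r 0 = ρ' := by rw [hr]; simp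
    linarith)
  linarith

end

end Pool.Agent.H889R2.OM
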