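import Pool.Agent.H889R2.OM.POT

set_option autoImplicit false

open MeasureTheory Filter Topology Set Metric
open scoped ENNReal NNReal RealInnerProductSpace

namespace Pool.Agent.H889R2.OM

open Pool.Agent.Helper533.Polar

variable {n : ℕ}

theorem POL_Cc_zero (D : Set (Sp n)) : Cc D (fun _ : Sp n => (0 : ℝ)) := by
  refine ⟨contDiff_const, HasCompactSupport.zero, ?_⟩
  have : tsupport (fun _ : Sp n => (0 : ℝ)) = ∅ := tsupport_eq_empty_iff.mpr rfl
  rw [this]
  exact empty_subset _

theorem POL_ok (hH : S_HAR) : S_POL := by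
  intro n hn p μ A hG y hcap R z hR hzy e he s₀ hs₀
  obtain ⟨L, C, hL, hC, hHar⟩ := hH n p μ A hG
  by_cases hz : z ∈ ball y R
  · obtain ⟨hp, hfin, hsm, α, β, Cd, θ, Cs, lam, Cp, hα, hβ, hA, hadm⟩ := hG
    have := hfin
    have hd : 0 < dist z y := dist_pos.mpr hzy
    have hL0 : 0 < L := by linarith
    have hC0 : 0 < C := by linarith
    obtain ⟨δ, hδ0, hδ1, hδ2⟩ : ∃ δ : ℝ, 0 < δ ∧ δ ≤ R - dist z y ∧ δ ≤ dist z y / 2 :=
      ⟨min (R - dist z y) (dist z y / 2), lt_min (by rw [mem_ball] at hz; linarith) (by linarith),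
        min_le_left _ _, min_le_right _ _⟩
    obtain ⟨r, hr⟩ : ∃ r : ℝ, r = δ / L := ⟨_, rfl⟩
    have hr0 : 0 < r := by rw [hr]; positivity
    have hLr : L * r = δ := by rw [hr]; field_simp
    have hball : ∀ x ∈ ball z (L * r), dist z y / 2 < dist x y ∧ dist x y < R := by
      intro x hx
      rw [mem_ball, hLr] at hx
      have h1 := dist_triangle x z y
      have h2 := dist_triangle z x y
      rw [dist_comm z x] at h2
      constructor <;> linarith
    have hμ : 0 < μ.real (ball z r) := real_ball_pos hadm z hr0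
    obtain ⟨κ, hκ, hsmall⟩ := obs_small (μ := μ) (A := A) (D := ball y R) (M := 1) hp hα hβ hA hadm
      isOpen_ball isBounded_ball zero_le_one (d := e / (2 * C)) (η := μ.real (ball z r) / 2)
      (by positivity) (by positivity)
    obtain ⟨V, φ, Φ, hVo, hyV, hVN, hφ, hφ01, hφV, hk1, hk2⟩ :=
      hcap (ball y s₀) isOpen_ball (by simpa using hs₀) κ hκ
    have hyV' : y ∈ V := hyV ⟨rfl, rfl⟩
    obtain ⟨ε, hε, hεV⟩ := Metric.isOpen_iff.mp hVo y hyV'
    obtain ⟨s, hs, hs1, hs2, hs3, hs4⟩ : ∃ s : ℝ, 0 < s ∧ s < ε ∧ s < s₀ ∧ s < dist z y / 2 ∧ s < R := by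
      refine ⟨min (min ε s₀) (min (dist z y / 2) R) / 2, by positivity, ?_, ?_, ?_, ?_⟩
      · have h1 : min (min ε s₀) (min (dist z y / 2) R) ≤ ε := (min_le_left _ _).trans (min_le_left _ _)
        linarith
      · have h1 : min (min ε s₀) (min (dist z y / 2) R) ≤ s₀ := (min_le_left _ _).trans (min_le_right _ _)
        linarith
      · have h1 : min (min ε s₀) (min (dist z y / 2) R) ≤ dist z y / 2 :=
          (min_le_right _ _).trans (min_le_left _ _)
        linarith
      · have h1 : min (min ε s₀) (min (dist z y / 2) R) ≤ R := (min_le_right _ _).trans (min_le_right _ _)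
        linarith
    have hsR : closedBall y s ⊆ ball y R := closedBall_subset_ball hs4
    have hsV : closedBall y s ⊆ V := (closedBall_subset_ball hs1).trans hεV
    obtain ⟨ρ, ω, W, hρ, hρ01, hρs, hC1, hPot⟩ := POT_aux hn
      ⟨hp, hfin, hsm, α, β, Cd, θ, Cs, lam, Cp, hα, hβ, hA, hadm⟩ y R y s hs hsR
    refine ⟨s, ω, hs, hs2, hsR, hPot, ?_⟩
    by_contra hcon
    push Not at hcon
    -- the obstacle solution of the zero obstacle
    obtain ⟨ω', W', hC2, -, h01', -, -⟩ := exists_raw hn hp hα hβ hA hadm hR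
      (POL_Cc_zero (ball y R)) (fun x => ⟨le_refl (0 : ℝ), zero_le_one⟩)
    have hω' := hC2.le_const hp hα hβ hA hadm isOpen_ball isBounded_ball (le_refl (0 : ℝ))
      (fun x => le_refl (0 : ℝ))
    have hS := hsmall ρ ω (fun _ => 0) ω' φ W W' Φ V 0 le_rfl hρ hC1 (POL_Cc_zero (ball y R)) hC2
      hρ01 (fun x => ⟨le_refl (0 : ℝ), zero_le_one⟩) (fun x _ hxV => by
        have h1 : x ∉ tsupport ρ := fun hx => hxV (hsV (hρs hx))
        rw [image_eq_zero_of_notMem_tsupport h1]
        simp) hφ hφ01 hφV hk1 hk2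
    have hsub : ball z r ⊆ {x | x ∈ ball y R ∧ e / (2 * C) < ω x - ω' x - 0} := by
      intro x hx
      have hxL : x ∈ ball z (L * r) := ball_subset_ball (by nlinarith) hx
      have h1 := hball x hxL
      refine ⟨mem_ball.mpr h1.2, ?_⟩
      have h2 := hω' x (mem_ball.mpr h1.2)
      have h3 := hHar (ball y R \ closedBall y s) (isOpen_ball.sdiff isClosed_closedBall) ω hPot.harm
        (fun x _ => hPot.nonneg x) z r hr0 (fun w hw => by
          have h4 := hball w hw
          refine ⟨mem_ball.mpr h4.2, fun h5 => ?_⟩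
          rw [mem_closedBall] at h5
          linarith) z (mem_ball_self hr0) x hx
      have h6 : e ≤ C * ω x := hcon.trans h3
      have h7 : e / C ≤ ω x := by
        rw [div_le_iff₀ hC0]
        linarith
      have h8 : e / (2 * C) = e / C / 2 := by
        field_simp
      have h9 : 0 < e / C := by positivity
      rw [h8]
      linarith
    have h10 : μ (ball z r) ≤ ENNReal.ofReal (μ.real (ball z r) / 2) := (measure_mono hsub).trans hS
    have h11 : μ.real (ball z r) ≤ μ.real (ball z r) / 2 :=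
      ENNReal.toReal_le_of_le_ofReal (by positivity) h10
    linarith
  · obtain ⟨s, hs, hs1, hs2⟩ : ∃ s : ℝ, 0 < s ∧ s < s₀ ∧ s < R := by
      refine ⟨min s₀ R / 2, by positivity, ?_, ?_⟩
      · have h1 := min_le_left s₀ R
        linarith
      · have h1 := min_le_right s₀ R
        linarith
    have hsR : closedBall y s ⊆ ball y R := closedBall_subset_ball hs2
    obtain ⟨ρ, ω, W, -, -, -, -, hPot⟩ := POT_aux hn hG y R y s hs hsR
    exact ⟨s, ω, hs, hs1, hsR, hPot, by rw [hPot.out z hz]; exact he⟩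

end Pool.Agent.H889R2.OM
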