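import Pool.Agent.H889R2.OM.LocA
open MeasureTheory Filter Topology Set Metric
open scoped ENNReal NNReal RealInnerProductSpace

set_option autoImplicit false

namespace Pool.Agent.H889R2.OM

open Pool.Agent.Helper533.Polar

variable {n : ℕ}

/-- `f` is open at `x` relative to `Ω` -/
def OpenAt (Ω : Set (Sp n)) (f : Sp n → Sp n) (x : Sp n) : Prop :=
  ∀ U ∈ 𝓝 x, f '' (Ω ∩ U) ∈ 𝓝 (f x)

theorem openAt_of_loc {Ω : Set (Sp n)} {f : Sp n → Sp n} (hΩ : IsOpen Ω) {x₀ : Sp n}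
    (hx₀ : x₀ ∈ Ω)
    (h : (∀ r : ℝ, 0 < r → ∃ x₁ ∈ ball x₀ r, x₁ ∈ Ω ∧ f x₁ ≠ f x₀) →
      ∀ r : ℝ, 0 < r → closedBall x₀ r ⊆ Ω → f '' closedBall x₀ r ∈ 𝓝 (f x₀))
    (hne : {x | f x = f x₀} ∉ 𝓝 x₀) : OpenAt Ω f x₀ := by
  intro U hU
  have h1 : ∀ r : ℝ, 0 < r → ∃ x₁ ∈ ball x₀ r, x₁ ∈ Ω ∧ f x₁ ≠ f x₀ := by
    intro r hr
    by_contra hcon
    push Not at hcon
    refine hne (mem_of_superset (inter_mem (ball_mem_nhds x₀ hr) (hΩ.mem_nhds hx₀)) ?_)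
    rintro x ⟨hx1, hx2⟩
    exact hcon x hx1 hx2
  obtain ⟨r, hr, hrs⟩ := nhds_basis_closedBall.mem_iff.1 (inter_mem (hΩ.mem_nhds hx₀) hU)
  refine mem_of_superset (h h1 r hr fun x hx => (hrs hx).1) (image_mono fun x hx => ?_)
  exact hrs hx

/-- a boundary point of the interior of a fibre -/
theorem exists_bd {A : Set (Sp n)} {f : Sp n → Sp n} (hA : IsOpen A) (hAc : IsPreconnected A)
    (hf : ContinuousOn f A) {x : Sp n} (hx : x ∈ A) (hne : ∃ z ∈ A, f z ≠ f x) :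
    ∃ x₀ ∈ A, f x₀ = f x ∧ {z | f z = f x₀} ∉ 𝓝 x₀ := by
  by_cases h1 : {z | f z = f x} ∉ 𝓝 x
  · exact ⟨x, hx, rfl, h1⟩
  · rw [not_not] at h1
    by_contra hcon
    push Not at hcon
    obtain ⟨z, hzA, hz⟩ := hne
    -- I = interior of the fibre
    have hsub : A ⊆ interior {z | f z = f x} := by
      refine hAc.subset_of_closure_inter_subset isOpen_interior
        ⟨x, hx, mem_interior_iff_mem_nhds.2 h1⟩ ?_
      rintro z' ⟨hz1, hz2⟩
      have h2 : f z' = f x := by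
        have h3 : z' ∈ closure (A ∩ {z | f z = f x}) := by
          have h4 : z' ∈ closure (A ∩ interior {z | f z = f x}) :=
            hA.inter_closure ⟨hz2, hz1⟩
          exact closure_mono (inter_subset_inter_right _ interior_subset) h4
        have h5 : f z' ∈ closure (f '' (A ∩ {z | f z = f x})) := by
          have h6 : ContinuousWithinAt f (A ∩ {z | f z = f x}) z' :=
            (hf z' hz2).mono inter_subset_left
          exact h6.mem_closure_image h3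
        have h7 : f '' (A ∩ {z | f z = f x}) ⊆ {f x} := by
          rintro _ ⟨a, ha, rfl⟩
          exact ha.2
        have h8 := closure_mono h7 h5
        rwa [closure_singleton] at h8
      have h9 := hcon z' hz2 h2
      rw [h2] at h9
      exact mem_interior_iff_mem_nhds.2 h9
    have h10 : z ∈ {z | f z = f x} := interior_subset (hsub hzA)
    exact hz h10

/-- images of domains -/
theorem image_domain {Ω A : Set (Sp n)} {f : Sp n → Sp n} (hAΩ : A ⊆ Ω) (hA : IsOpen A)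
    (hAc : IsConnected A) (hf : ContinuousOn f Ω)
    (h : ∀ x ∈ Ω, {z | f z = f x} ∉ 𝓝 x → OpenAt Ω f x) :
    IsOpen (f '' A) ∨ ∃ y, f '' A = {y} := by
  by_cases hc : ∃ a ∈ A, ∃ b ∈ A, f a ≠ f b
  · left
    rw [isOpen_iff_mem_nhds]
    rintro _ ⟨x, hx, rfl⟩
    have hne : ∃ z ∈ A, f z ≠ f x := by
      obtain ⟨a, ha, b, hb, hab⟩ := hc
      by_contra hcon
      push Not at hcon
      exact hab ((hcon a ha).trans (hcon b hb).symm)
    obtain ⟨x₀, hx₀, hfx, hn⟩ := exists_bd hA hAc.isPreconnected (hf.mono hAΩ) hx hne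
    have h1 := h x₀ (hAΩ hx₀) hn A (hA.mem_nhds hx₀)
    rw [hfx] at h1
    exact mem_of_superset h1 (image_mono inter_subset_right)
  · right
    push Not at hc
    obtain ⟨a, ha⟩ := hAc.nonempty
    refine ⟨f a, Subset.antisymm ?_ ?_⟩
    · rintro _ ⟨x, hx, rfl⟩
      exact hc x hx a ha
    · rintro _ rfl
      exact ⟨a, ha, rfl⟩

/-- the boundary of the interior of a fibre has no isolated points -/
theorem bd_no_isolated (hn : 2 ≤ n) {Ω : Set (Sp n)} {f : Sp n → Sp n} (hΩ : IsOpen Ω)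
    (hf : ContinuousOn f Ω) {y x₁ : Sp n} (hx₁ : x₁ ∈ Ω)
    (hx₁F : x₁ ∈ frontier (interior (Ω ∩ f ⁻¹' {y}))) {r : ℝ} (hr : 0 < r) (hrΩ : ball x₁ r ⊆ Ω) :
    ∃ x₂ ∈ ball x₁ r, x₂ ≠ x₁ ∧ x₂ ∈ frontier (interior (Ω ∩ f ⁻¹' {y})) := by
  by_contra hcon
  push Not at hcon
  obtain ⟨I, hI⟩ : ∃ I, I = interior (Ω ∩ f ⁻¹' {y}) := ⟨_, rfl⟩
  rw [← hI] at hcon hx₁F
  have hIo : IsOpen I := by rw [hI]; exact isOpen_interior
  have hIf : ∀ x ∈ I, f x = y := fun x hx => by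
    rw [hI] at hx
    exact (interior_subset hx).2
  rw [hIo.frontier_eq] at hx₁F hcon
  have hfx₁ : f x₁ = y := by
    have h3 : x₁ ∈ closure (Ω ∩ I) := hΩ.inter_closure ⟨hx₁, hx₁F.1⟩
    have h5 : f x₁ ∈ closure (f '' (Ω ∩ I)) := by
      have h6 : ContinuousWithinAt f (Ω ∩ I) x₁ := (hf x₁ hx₁).mono inter_subset_left
      exact h6.mem_closure_image h3
    have h7 : f '' (Ω ∩ I) ⊆ {y} := by
      rintro _ ⟨a, ha, rfl⟩
      exact hIf a ha.2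
    have h8 := closure_mono h7 h5
    rwa [closure_singleton] at h8
  have hconn := annulus_preconnected hn x₁ (a := 0) (b := r) le_rfl
  have hmem : ∀ x, x ∈ {z : Sp n | 0 < dist z x₁ ∧ dist z x₁ < r} ↔ x ∈ ball x₁ r ∧ x ≠ x₁ := by
    intro x
    rw [Set.mem_ofPred_eq, dist_pos, mem_ball]
    exact and_comm
  have hsub : {z : Sp n | 0 < dist z x₁ ∧ dist z x₁ < r} ⊆ I := by
    refine hconn.subset_of_closure_inter_subset hIo ?_ ?_
    · -- I meets the punctured ball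
      have h1 : x₁ ∈ closure I := hx₁F.1
      obtain ⟨z, hz1, hz2⟩ := mem_closure_iff.1 h1 (ball x₁ r) isOpen_ball (mem_ball_self hr)
      refine ⟨z, (hmem z).2 ⟨hz1, fun h => ?_⟩, hz2⟩
      rw [h] at hz2
      exact hx₁F.2 hz2
    · rintro z ⟨hz1, hz2⟩
      by_contra hzI
      obtain ⟨h1, h2⟩ := (hmem z).1 hz2
      exact hcon z h1 h2 ⟨hz1, hzI⟩
  apply hx₁F.2
  rw [hI, mem_interior_iff_mem_nhds]
  refine mem_of_superset (ball_mem_nhds x₁ hr) fun x hx => ⟨hrΩ hx, ?_⟩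
  by_cases h : x = x₁
  · rw [h]
    exact hfx₁
  · exact hIf x (hsub ((hmem x).2 ⟨hx, h⟩))

/-- points on the boundary of the interior of a fibre -/
theorem bd_fib {Ω : Set (Sp n)} {f : Sp n → Sp n} (hΩ : IsOpen Ω)
    (hf : ContinuousOn f Ω) {y x₁ : Sp n} (hx₁ : x₁ ∈ Ω)
    (hx₁F : x₁ ∈ frontier (interior (Ω ∩ f ⁻¹' {y}))) :
    f x₁ = y ∧ {z | f z = f x₁} ∉ 𝓝 x₁ := by
  obtain ⟨I, hI⟩ : ∃ I, I = interior (Ω ∩ f ⁻¹' {y}) := ⟨_, rfl⟩
  rw [← hI] at hx₁F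
  have hIo : IsOpen I := by rw [hI]; exact isOpen_interior
  have hIf : ∀ x ∈ I, f x = y := fun x hx => by
    rw [hI] at hx
    exact (interior_subset hx).2
  rw [hIo.frontier_eq] at hx₁F
  have hfx₁ : f x₁ = y := by
    have h3 : x₁ ∈ closure (Ω ∩ I) := hΩ.inter_closure ⟨hx₁, hx₁F.1⟩
    have h5 : f x₁ ∈ closure (f '' (Ω ∩ I)) := by
      have h6 : ContinuousWithinAt f (Ω ∩ I) x₁ := (hf x₁ hx₁).mono inter_subset_left
      exact h6.mem_closure_image h3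
    have h7 : f '' (Ω ∩ I) ⊆ {y} := by
      rintro _ ⟨a, ha, rfl⟩
      exact hIf a ha.2
    have h8 := closure_mono h7 h5
    rwa [closure_singleton] at h8
  refine ⟨hfx₁, fun hcon => hx₁F.2 ?_⟩
  rw [hI, mem_interior_iff_mem_nhds]
  refine mem_of_superset (inter_mem (hΩ.mem_nhds hx₁) hcon) fun x hx => ⟨hx.1, ?_⟩
  have : f x = f x₁ := hx.2
  rw [hfx₁] at this
  exact this

/-- unbounded multiplicity near the boundary of the interior of a fibre -/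
theorem mult {Ω : Set (Sp n)} (hn : 2 ≤ n) {f : Sp n → Sp n} (hΩ : IsOpen Ω)
    (hf : ContinuousOn f Ω) (h : ∀ x ∈ Ω, {z | f z = f x} ∉ 𝓝 x → OpenAt Ω f x)
    {y x₁ : Sp n} (hx₁ : x₁ ∈ Ω) (hx₁F : x₁ ∈ frontier (interior (Ω ∩ f ⁻¹' {y})))
    {U : Set (Sp n)} (hU : U ∈ 𝓝 x₁) (M : ℕ) :
    ∀ᶠ z in 𝓝 y, (M : ℕ∞) ≤ (Ω ∩ U ∩ f ⁻¹' {z}).encard := by
  obtain ⟨r, hr, hrs⟩ := nhds_basis_ball.mem_iff.1 (inter_mem (hΩ.mem_nhds hx₁) hU)
  have hinf : (ball x₁ r ∩ frontier (interior (Ω ∩ f ⁻¹' {y}))).Infinite := by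
    intro hfin
    have hfin' : ((ball x₁ r ∩ frontier (interior (Ω ∩ f ⁻¹' {y}))) \ {x₁}).Finite :=
      hfin.subset sdiff_subset
    have h1 : ((ball x₁ r ∩ frontier (interior (Ω ∩ f ⁻¹' {y}))) \ {x₁})ᶜ ∈ 𝓝 x₁ :=
      hfin'.isClosed.isOpen_compl.mem_nhds fun h => h.2 rfl
    obtain ⟨r', hr', hrs'⟩ := nhds_basis_ball.mem_iff.1 (inter_mem h1 (ball_mem_nhds x₁ hr))
    obtain ⟨x₂, h2, h3, h4⟩ := bd_no_isolated hn hΩ hf hx₁ hx₁F hr'
      fun x hx => (hrs (hrs' hx).2).1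
    exact (hrs' h2).1 ⟨⟨(hrs' h2).2, h4⟩, h3⟩
  obtain ⟨T, hT, hTc⟩ := hinf.exists_subset_card_eq M
  obtain ⟨W, hW1, hW2⟩ := T.finite_toSet.t2_separation
  have hev : ∀ t ∈ T, ∀ᶠ z in 𝓝 y, ∃ x ∈ Ω ∩ (W t ∩ U), f x = z := by
    intro t ht
    obtain ⟨h1, h2⟩ := hT ht
    have h3 := hrs h1
    obtain ⟨h4, h5⟩ := bd_fib hΩ hf h3.1 h2
    have hUt : W t ∩ (ball x₁ r) ∈ 𝓝 t :=
      inter_mem ((hW1 t).2.mem_nhds (hW1 t).1) (isOpen_ball.mem_nhds h1)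
    have h6 := h t h3.1 h5 _ hUt
    rw [h4] at h6
    refine mem_of_superset h6 ?_
    rintro _ ⟨x, hx, rfl⟩
    exact ⟨x, ⟨hx.1, hx.2.1, (hrs hx.2.2).2⟩, rfl⟩
  have hev' : ∀ᶠ z in 𝓝 y, ∀ t ∈ T, ∃ x ∈ Ω ∩ (W t ∩ U), f x = z :=
    (Finset.eventually_all T).2 hev
  filter_upwards [hev'] with z hz
  choose! g hg1 hg2 using hz
  have hinj : Set.InjOn g T := by
    intro a ha b hb hab
    by_contra hne
    have h1 := hW2 ha hb hne
    rw [Function.onFun, Set.disjoint_left] at h1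
    refine h1 (hg1 a ha).2.1 ?_
    rw [hab]
    exact (hg1 b hb).2.1
  calc (M : ℕ∞) = (T : Set (Sp n)).encard := by
        rw [Set.encard_coe_eq_coe_finsetCard, hTc]
    _ = (g '' T).encard := (hinj.encard_image).symm
    _ ≤ (Ω ∩ U ∩ f ⁻¹' {z}).encard := by
        refine Set.encard_le_encard ?_
        rintro _ ⟨t, ht, rfl⟩
        exact ⟨⟨(hg1 t ht).1, (hg1 t ht).2.2⟩, hg2 t ht⟩

/-- openness is equivalent to the Rado property -/
theorem open_iff {Ω : Set (Sp n)} (hn : 2 ≤ n) {f : Sp n → Sp n} (hΩ : IsOpen Ω)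
    (h : ∀ x ∈ Ω, {z | f z = f x} ∉ 𝓝 x → OpenAt Ω f x) :
    (∀ U ⊆ Ω, IsOpen U → IsOpen (f '' U)) ↔ ∀ y, interior (Ω ∩ f ⁻¹' {y}) = ∅ := by
  haveI : Nontrivial (Sp n) := by
    haveI : Nonempty (Fin n) := ⟨⟨0, by omega⟩⟩
    infer_instance
  constructor
  · intro ho y
    by_contra hcon
    obtain ⟨x, hx⟩ := nonempty_iff_ne_empty.2 hcon
    have h1 := ho (interior (Ω ∩ f ⁻¹' {y})) (interior_subset.trans inter_subset_left)
      isOpen_interior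
    have h2 : f '' interior (Ω ∩ f ⁻¹' {y}) = {y} := by
      refine Subset.antisymm ?_ ?_
      · rintro _ ⟨z, hz, rfl⟩
        exact (interior_subset hz).2
      · rintro _ rfl
        exact ⟨x, hx, (interior_subset hx).2⟩
    rw [h2] at h1
    exact not_isOpen_singleton y h1
  · intro hR U hUΩ hU
    rw [isOpen_iff_mem_nhds]
    rintro _ ⟨x, hx, rfl⟩
    have h1 : {z | f z = f x} ∉ 𝓝 x := by
      intro hcon
      have h2 : x ∈ interior (Ω ∩ f ⁻¹' {f x}) :=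
        mem_interior_iff_mem_nhds.2 (inter_mem (hΩ.mem_nhds (hUΩ hx)) hcon)
      rw [hR] at h2
      exact h2
    exact mem_of_superset (h x (hUΩ hx) h1 U (hU.mem_nhds hx)) (image_mono inter_subset_right)

/-- locally bounded multiplicity implies openness -/
theorem open_of_mult {Ω : Set (Sp n)} (hn : 2 ≤ n) {f : Sp n → Sp n} (hΩ : IsOpen Ω)
    (hΩc : IsPreconnected Ω) (hf : ContinuousOn f Ω) (hne : ∃ a ∈ Ω, ∃ b ∈ Ω, f a ≠ f b)
    (h : ∀ x ∈ Ω, {z | f z = f x} ∉ 𝓝 x → OpenAt Ω f x)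
    (hm : ∀ x ∈ Ω, ∃ U ∈ 𝓝 x, ∃ M : ℕ, ∃ᶠ z in 𝓝 (f x), (Ω ∩ U ∩ f ⁻¹' {z}).encard ≤ M) :
    ∀ U ⊆ Ω, IsOpen U → IsOpen (f '' U) := by
  rw [open_iff hn hΩ h]
  intro y
  by_contra hcon
  obtain ⟨x, hx⟩ := nonempty_iff_ne_empty.2 hcon
  have hfr : ∃ x₁ ∈ Ω, x₁ ∈ frontier (interior (Ω ∩ f ⁻¹' {y})) := by
    by_contra hcon2
    push Not at hcon2
    have h1 : Ω ⊆ interior (Ω ∩ f ⁻¹' {y}) := by
      refine hΩc.subset_of_closure_inter_subset isOpen_interior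
        ⟨x, (interior_subset hx).1, hx⟩ ?_
      rintro z ⟨hz1, hz2⟩
      by_contra hz3
      refine hcon2 z hz2 ?_
      rw [isOpen_interior.frontier_eq]
      exact ⟨hz1, hz3⟩
    obtain ⟨a, ha, b, hb, hab⟩ := hne
    exact hab ((interior_subset (h1 ha)).2.trans (interior_subset (h1 hb)).2.symm)
  obtain ⟨x₁, hx₁, hx₁F⟩ := hfr
  obtain ⟨hfx, -⟩ := bd_fib hΩ hf hx₁ hx₁F
  obtain ⟨U, hU, M, hM⟩ := hm x₁ hx₁
  rw [hfx] at hM
  obtain ⟨z, hz1, hz2⟩ := (hM.and_eventually (mult hn hΩ hf h hx₁ hx₁F hU (M + 1))).exists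
  have h3 := hz2.trans hz1
  norm_cast at h3
  omega

end Pool.Agent.H889R2.OM
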